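import Pool.Agent.Helper83.PY.Claims

open Finset

set_option linter.unusedSectionVars false
set_option linter.unusedSimpArgs false
set_option linter.unusedVariables false

namespace Helper83.PY

variable {ι A B : Type*} [DecidableEq ι] [DecidableEq A] [DecidableEq B] [Fintype A] [Fintype B]

section
variable {Q : QS ι A B} {E : Finset ι}

theorem sides_ne (hE : IsSph Q E) {e : ι} (he : e ∈ E) (h2 : 2 ≤ E.card) : Q.x e ≠ Q.y e := by
  intro h1
  have h3 : ∀ a b, Q.bd {e} a b = 0 := by
    intro a b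
    unfold QS.bd QS.cnt QS.inc
    rw [Finset.sum_singleton, h1]
    push_cast
    have : ∀ t : ZMod 2, t + t = 0 := fun t => CharTwo.add_self_eq_zero t
    rw [this, mul_zero]
  rcases hE.conn {e} (Finset.singleton_subset_iff.2 he) h3 with h4 | h4
  · exact absurd h4 (Finset.singleton_ne_empty e)
  · rw [← h4, Finset.card_singleton] at h2; omega

theorem ends_ne (hE : IsSph Q E) {e : ι} (he : e ∈ E) (h2 : 2 ≤ E.card) : Q.p e ≠ Q.q e :=
  sides_ne hE.swap he h2

theorem bd_single {e : ι} (hp : Q.p e ≠ Q.q e) (hx : Q.x e ≠ Q.y e) (a : A) (b : B) :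
    Q.bd {e} a b = del (Q.p e) (Q.q e) (Q.x e) (Q.y e) a b := by
  unfold QS.bd QS.cnt QS.inc del
  rw [Finset.sum_singleton]
  by_cases h1 : Q.p e = a
  · have h2 : ¬ Q.q e = a := fun h => hp (h1.trans h.symm)
    by_cases h3 : Q.x e = b
    · have h4 : ¬ Q.y e = b := fun h => hx (h3.trans h.symm)
      simp [h1, h2, h3, h4]
    · by_cases h4 : Q.y e = b
      · simp [h1, h2, h3, h4]
      · simp [h1, h2, h3, h4, Ne.symm h3, Ne.symm h4]
  · by_cases h2 : Q.q e = a
    · by_cases h3 : Q.x e = b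
      · have h4 : ¬ Q.y e = b := fun h => hx (h3.trans h.symm)
        simp [h1, h2, h3, h4]
      · by_cases h4 : Q.y e = b
        · simp [h1, h2, h3, h4]
        · simp [h1, h2, h3, h4, Ne.symm h3, Ne.symm h4]
    · have h5 : ¬ (a = Q.p e ∨ a = Q.q e) := by
        rintro (h | h)
        · exact h1 h.symm
        · exact h2 h.symm
      simp [h1, h2, h5]

theorem del_comm_hub (v z : A) (h f : B) (a : A) (b : B) :
    del v z h f a b = del v z f h a b := by
  unfold del; simp only [or_comm]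

theorem del_comm_end (v z : A) (h f : B) (a : A) (b : B) :
    del v z h f a b = del z v h f a b := by
  unfold del; simp only [or_comm]

/-- `E.erase e` is a region between the ends of `e`, for any naming of ends and sides. -/
theorem erase_reg (hE : IsSph Q E) {e : ι} (he : e ∈ E) {v w : A} {h f : B}
    (hvw : v ≠ w) (hhf : h ≠ f) (hv : Q.atA e v) (hw : Q.atA e w) (hh : Q.atB e h)
    (hf : Q.atB e f) : IsReg Q (E.erase e) v w h f := by
  refine ⟨hvw, hhf, ?_⟩
  intro a b
  have h1 : E.erase e = E \ {e} := by rw [Finset.sdiff_singleton_eq_erase]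
  have hx : Q.x e ≠ Q.y e := by
    intro h2
    apply hhf
    rcases hh with h3 | h3 <;> rcases hf with h4 | h4
    · exact h3.symm.trans h4
    · exact h3.symm.trans (h2.trans h4)
    · exact h3.symm.trans (h2.symm.trans h4)
    · exact h3.symm.trans h4
  have hp : Q.p e ≠ Q.q e := by
    intro h2
    apply hvw
    rcases hv with h3 | h3 <;> rcases hw with h4 | h4
    · exact h3.symm.trans h4
    · exact h3.symm.trans (h2.trans h4)
    · exact h3.symm.trans (h2.symm.trans h4)
    · exact h3.symm.trans h4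
  rw [h1, Q.bd_sdiff (Finset.singleton_subset_iff.2 he), hE.bd_all, zero_add, bd_single hp hx]
  rcases hv with h3 | h3 <;> rcases hw with h4 | h4
  · exact absurd (h3.symm.trans h4) hvw
  · rcases hh with h5 | h5 <;> rcases hf with h6 | h6
    · exact absurd (h5.symm.trans h6) hhf
    · rw [h3, h4, h5, h6]
    · rw [h3, h4, h5, h6, del_comm_hub]
    · exact absurd (h5.symm.trans h6) hhf
  · rcases hh with h5 | h5 <;> rcases hf with h6 | h6
    · exact absurd (h5.symm.trans h6) hhf
    · rw [h3, h4, h5, h6, del_comm_end]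
    · rw [h3, h4, h5, h6, del_comm_end, del_comm_hub]
    · exact absurd (h5.symm.trans h6) hhf
  · exact absurd (h3.symm.trans h4) hvw

/-- the other end / side -/
theorem other_end (hE : IsSph Q E) {e : ι} (he : e ∈ E) (h2 : 2 ≤ E.card) {v : A}
    (hv : Q.atA e v) : ∃ w, v ≠ w ∧ Q.atA e w := by
  have h1 := ends_ne hE he h2
  rcases hv with h3 | h3
  · exact ⟨Q.q e, by rw [← h3]; exact h1, Or.inr rfl⟩
  · exact ⟨Q.p e, by rw [← h3]; exact Ne.symm h1, Or.inl rfl⟩

theorem other_side (hE : IsSph Q E) {e : ι} (he : e ∈ E) (h2 : 2 ≤ E.card) {h : B}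
    (hh : Q.atB e h) : ∃ f, h ≠ f ∧ Q.atB e f :=
  other_end hE.swap he h2 hh

theorem atA_two {e : ι} {v w a : A} (hvw : v ≠ w) (hv : Q.atA e v) (hw : Q.atA e w)
    (ha : Q.atA e a) : a = v ∨ a = w := by
  rcases hv with h3 | h3 <;> rcases hw with h4 | h4 <;> rcases ha with h5 | h5
  · exact absurd (h3.symm.trans h4) hvw
  · exact absurd (h3.symm.trans h4) hvw
  · left; exact h5.symm.trans h3
  · right; exact h5.symm.trans h4
  · right; exact h5.symm.trans h4
  · left; exact h5.symm.trans h3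
  · exact absurd (h3.symm.trans h4) hvw
  · exact absurd (h3.symm.trans h4) hvw

theorem atB_two {e : ι} {h f b : B} (hhf : h ≠ f) (hh : Q.atB e h) (hf : Q.atB e f)
    (hb : Q.atB e b) : b = h ∨ b = f :=
  atA_two (Q := Q.swap) hhf hh hf hb

/-- planarity: two diagonals of a face cannot both have a third common neighbour -/
theorem planar (hE : IsSph Q E) {e : ι} (he : e ∈ E) {v w z : A} {h f y : B}
    (hvw : v ≠ w) (hhf : h ≠ f) (hv : Q.atA e v) (hw : Q.atA e w) (hh : Q.atB e h)
    (hf : Q.atB e f) (hzv : z ≠ v) (hzw : z ≠ w) (hyh : y ≠ h) (hyf : y ≠ f)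
    (z1 : ∃ i ∈ E, Q.atA i z ∧ Q.atB i h) (z2 : ∃ i ∈ E, Q.atA i z ∧ Q.atB i f)
    (y1 : ∃ i ∈ E, Q.atA i v ∧ Q.atB i y) (y2 : ∃ i ∈ E, Q.atA i w ∧ Q.atB i y) : False := by
  have R := erase_reg hE he hvw hhf hv hw hh hf
  have hKE : E.erase e ⊆ E := Finset.erase_subset e E
  have c1 : Q.cnt (E.erase e) z h ≠ 0 := by
    obtain ⟨i, hi, h1, h2⟩ := z1
    refine (Q.cnt_ne_zero _ _ _).2 ⟨i, Finset.mem_erase.2 ⟨?_, hi⟩, h1, h2⟩
    rintro rfl
    rcases atA_two hvw hv hw h1 with h3 | h3
    · exact hzv h3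
    · exact hzw h3
  have c2 : Q.cnt (E.erase e) z f ≠ 0 := by
    obtain ⟨i, hi, h1, h2⟩ := z2
    refine (Q.cnt_ne_zero _ _ _).2 ⟨i, Finset.mem_erase.2 ⟨?_, hi⟩, h1, h2⟩
    rintro rfl
    rcases atA_two hvw hv hw h1 with h3 | h3
    · exact hzv h3
    · exact hzw h3
  obtain ⟨K1, hK1, R1, R2⟩ := reg_split hE hKE R hzv hzw c1 c2
  have hK1E := hK1.trans hKE
  have heK1 : e ∉ K1 := fun h1 => (Finset.mem_erase.1 (hK1 h1)).1 rfl
  have heK2 : e ∉ E.erase e \ K1 := fun h1 =>
    (Finset.mem_erase.1 (Finset.mem_sdiff.1 h1).1).1 rfl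
  -- no face of K1 at w
  have n1 : ∀ i ∈ K1, ¬ Q.atA i w := by
    rcases hE.linkA w K1 hK1E (fun b => by
      rw [R1.bd]; exact del_A (Ne.symm hvw) (Ne.symm hzw) b) with h3 | h3
    · exact absurd (h3 e he hw) heK1
    · exact h3
  have n2 : ∀ i ∈ E.erase e \ K1, ¬ Q.atA i v := by
    rcases hE.linkA v (E.erase e \ K1) (Finset.sdiff_subset.trans hKE) (fun b => by
      rw [R2.bd]; exact del_A (Ne.symm hzv) hvw b) with h3 | h3
    · exact absurd (h3 e he hv) heK2
    · exact h3
  obtain ⟨i, hi, hi1, hi2⟩ := y1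
  obtain ⟨j, hj, hj1, hj2⟩ := y2
  have ie : i ≠ e := by
    rintro rfl
    rcases atB_two hhf hh hf hi2 with h3 | h3
    · exact hyh h3
    · exact hyf h3
  have je : j ≠ e := by
    rintro rfl
    rcases atB_two hhf hh hf hj2 with h3 | h3
    · exact hyh h3
    · exact hyf h3
  have iK : i ∈ K1 := by
    by_contra h1
    exact n2 i (Finset.mem_sdiff.2 ⟨Finset.mem_erase.2 ⟨ie, hi⟩, h1⟩) hi1
  rcases hE.linkB y K1 hK1E (fun a => by rw [R1.bd]; exact del_B hyh hyf a) with h3 | h3
  · exact n1 j (h3 j hj hj2) hj1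
  · exact h3 i iK hi2

/-- there is a second face at a pair -/
theorem second (hE : IsSph Q E) {e : ι} (he : e ∈ E) (h2 : 2 ≤ E.card) {a : A} {b : B}
    (ha : Q.atA e a) (hb : Q.atB e b) : ∃ i ∈ E.erase e, Q.atA i a ∧ Q.atB i b := by
  obtain ⟨w, hw1, hw2⟩ := other_end hE he h2 ha
  obtain ⟨f, hf1, hf2⟩ := other_side hE he h2 hb
  have R := erase_reg hE he hw1 hf1 ha hw2 hb hf2
  exact reg_corner R (Or.inl rfl) (Or.inl rfl)

end

theorem claims_one : Claims ι A B 1 where
  A0 := by
    intro Q E h hE hc hh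
    obtain ⟨e, he⟩ := Finset.card_eq_one.1 hc
    refine ⟨{Q.p e}, ∅, Finset.notMem_empty h, ?_, ?_⟩
    · intro i hi
      rw [he, Finset.mem_singleton] at hi
      subst hi
      left; exact Finset.mem_singleton_self _
    · simp
  A1 := by
    intro Q E h M hE hc hM hMo
    obtain ⟨e, he⟩ := Finset.card_eq_one.1 hc
    have hsub : M ⊆ {Q.p e, Q.q e} := by
      intro a ha
      obtain ⟨i, hi, h1, _⟩ := hMo a ha
      rw [he, Finset.mem_singleton] at hi
      subst hi
      rw [Finset.mem_insert, Finset.mem_singleton]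
      rcases h1 with h1 | h1
      · left; exact h1.symm
      · right; exact h1.symm
    have hcard : M.card ≤ 2 := (Finset.card_le_card hsub).trans Finset.card_le_two
    refine ⟨M, ∅, Finset.Subset.refl _, Finset.notMem_empty h, ?_, ?_⟩
    · intro i hi
      obtain ⟨a, ha⟩ := hM
      obtain ⟨j, hj, h1, _⟩ := hMo a ha
      rw [he, Finset.mem_singleton] at hi hj
      subst hi; subst hj
      exact Hit.of_atA h1 ha
    · rw [Finset.card_empty]; omega
  Af := by
    intro Q E h e hE hc he hh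
    obtain ⟨e', he'⟩ := Finset.card_eq_one.1 hc
    refine ⟨∅, ∅, Finset.notMem_empty h, ?_, ?_⟩
    · intro i hi
      rw [Finset.mem_erase] at hi
      have h1 := hi.2
      rw [he', Finset.mem_singleton] at h1 he
      exact absurd (h1.trans he.symm) hi.1
    · simp

theorem claims_zero : Claims ι A B 0 where
  A0 := by
    intro Q E h hE hc hh
    exact absurd (Finset.card_eq_zero.1 hc) (Finset.nonempty_iff_ne_empty.1 hE.ne)
  A1 := by
    intro Q E h M hE hc hM hMo
    exact absurd (Finset.card_eq_zero.1 hc) (Finset.nonempty_iff_ne_empty.1 hE.ne)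
  Af := by
    intro Q E h e hE hc he hh
    exact absurd (Finset.card_eq_zero.1 hc) (Finset.nonempty_iff_ne_empty.1 hE.ne)

section
variable {n : ℕ}

theorem hit_erase {Q : QS ι A B} {E : Finset ι} {e : ι} {SA : Finset A} {SB : Finset B}
    (h1 : Hit Q (E.erase e) SA SB)
    (h2 : Q.p e ∈ SA ∨ Q.q e ∈ SA ∨ Q.x e ∈ SB ∨ Q.y e ∈ SB) : Hit Q E SA SB := by
  intro i hi
  by_cases hie : i = e
  · subst hie; exact h2
  · exact h1 i (Finset.mem_erase.2 ⟨hie, hi⟩)

theorem step_A1 (hn : 2 ≤ n) (hcl : ∀ j < n, Claims ι A B j) (Q : QS ι A B) (E : Finset ι)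
    (h : B) (M : Finset A) (hE : IsSph Q E) (hc : E.card = n) (hM : M.Nonempty)
    (hMo : ∀ a ∈ M, ∃ i ∈ E, Q.atA i a ∧ Q.atB i h) :
    ∃ (SA : Finset A) (SB : Finset B), M ⊆ SA ∧ h ∉ SB ∧ Hit Q E SA SB ∧
      3 * (SA.card + SB.card) ≤ n + 1 + 2 * M.card := by
  obtain ⟨v, hvM⟩ := hM
  obtain ⟨e, he, hev, heh⟩ := hMo v hvM
  obtain ⟨w, hvw, hew⟩ := other_end hE he (by omega) hev
  obtain ⟨f, hhf, hef⟩ := other_side hE he (by omega) heh
  have R := erase_reg hE he hvw hhf hev hew heh hef
  have hKE : E.erase e ⊆ E := Finset.erase_subset e E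
  have hKc : (E.erase e).card = n - 1 := by rw [Finset.card_erase_of_mem he, hc]
  by_cases hM1 : M.card = 1
  · -- a single forced vertex
    have hMv : M = {v} := by
      obtain ⟨a, ha⟩ := Finset.card_eq_one.1 hM1
      rw [ha, Finset.mem_singleton] at hvM
      rw [ha, hvM]
    have hsub : ∀ SA : Finset A, v ∈ SA → M ⊆ SA := by
      intro SA h1; rw [hMv]; exact Finset.singleton_subset_iff.2 h1
    rcases chain (N := n - 1) (fun j hj => hcl j (by omega)) (n - 1) (le_refl _) Q E (E.erase e)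
      v w h f hE hKE R hKc with ⟨m, t⟩ | ⟨m, t⟩
    · obtain ⟨_, ⟨SA, SB, b0, b1, b2, b3, b4⟩, _, _, ⟨SA', SB', e1, e2, e3, e4⟩⟩ := t
      by_cases hm : m ≤ 1
      · exact ⟨SA, SB, hsub SA b0, b1, hit_erase b3 (Hit.of_atA hev b0), by
          rw [hKc] at b4; push_cast at *; omega⟩
      · refine ⟨insert v SA', SB', hsub _ (Finset.mem_insert_self _ _), e1,
          hit_erase (e3.mono (Finset.subset_insert _ _) (Finset.Subset.refl _))
            (Hit.of_atA hev (Finset.mem_insert_self _ _)), ?_⟩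
        have := Finset.card_insert_le v SA'
        rw [hKc] at e4; push_cast at *; omega
    · obtain ⟨_, ⟨SA, SB, b0, b1, b2, b3, b4⟩, _, _, ⟨SA', SB', e1, e2, e3, e4⟩⟩ := t
      by_cases hm : m ≤ 4
      · exact ⟨SA, SB, hsub SA b0, b1, hit_erase b3 (Hit.of_atA hev b0), by
          rw [hKc] at b4; push_cast at *; omega⟩
      · refine ⟨insert v SA', SB', hsub _ (Finset.mem_insert_self _ _), e1,
          hit_erase (e3.mono (Finset.subset_insert _ _) (Finset.Subset.refl _))
            (Hit.of_atA hev (Finset.mem_insert_self _ _)), ?_⟩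
        have := Finset.card_insert_le v SA'
        rw [hKc] at e4; push_cast at *; omega
  · have hMcard : 2 ≤ M.card := by
      have := Finset.card_pos.2 ⟨v, hvM⟩
      omega
    by_cases hbl : ∀ a, a ≠ v → a ≠ w → Q.cnt (E.erase e) a h = 0 ∨ Q.cnt (E.erase e) a f = 0
    · -- deletion
      have hs := block_sph hE hKE R hbl
      obtain ⟨SA, SB, g0, g1, g2, g3⟩ := (hcl (n - 1) (by omega)).A1 _ (E.erase e) h M hs hKc
        ⟨v, hvM⟩ (by
          intro a ha
          obtain ⟨i, hi, hia, hib⟩ := hMo a ha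
          by_cases hie : i = e
          · subst hie
            obtain ⟨j, hj, hja, hjb⟩ := second hE he (by omega) hia hib
            exact ⟨j, hj, hja, (ren_atB_hub hhf j).2 (Or.inl hjb)⟩
          · exact ⟨i, Finset.mem_erase.2 ⟨hie, hi⟩, hia, (ren_atB_hub hhf i).2 (Or.inl hib)⟩)
      refine ⟨SA, SB.erase f, g0, fun h1 => g1 (Finset.mem_of_mem_erase h1),
        hit_erase (hit_ren g1 g2) (Hit.of_atA hev (g0 hvM)), ?_⟩
      have := Finset.card_erase_le (a := f) (s := SB)
      omega
    · -- contraction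
      push Not at hbl
      obtain ⟨z, hzv, hzw, hz1, hz2⟩ := hbl
      have z1 : ∃ i ∈ E, Q.atA i z ∧ Q.atB i h := by
        obtain ⟨i, hi, h1⟩ := (Q.cnt_ne_zero _ _ _).1 hz1
        exact ⟨i, hKE hi, h1⟩
      have z2 : ∃ i ∈ E, Q.atA i z ∧ Q.atB i f := by
        obtain ⟨i, hi, h1⟩ := (Q.cnt_ne_zero _ _ _).1 hz2
        exact ⟨i, hKE hi, h1⟩
      have hE' := hE.swap
      have R' : IsReg Q.swap (E.erase e) h f v w :=
        erase_reg hE' he hhf hvw heh hef hev hew
      have hbl' : ∀ b, b ≠ h → b ≠ f →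
          Q.swap.cnt (E.erase e) b v = 0 ∨ Q.swap.cnt (E.erase e) b w = 0 := by
        intro b hb1 hb2
        by_contra hcon
        push Not at hcon
        obtain ⟨c1, c2⟩ := hcon
        rw [QS.swap_cnt] at c1 c2
        obtain ⟨i, hi, h1⟩ := (Q.cnt_ne_zero _ _ _).1 c1
        obtain ⟨j, hj, h2⟩ := (Q.cnt_ne_zero _ _ _).1 c2
        exact planar hE he hvw hhf hev hew heh hef hzv hzw hb1 hb2 z1 z2
          ⟨i, hKE hi, h1⟩ ⟨j, hKE hj, h2⟩
      have hs := (block_sph hE' hKE R' hbl').swap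
      -- Q2 = contraction: w renamed to v on ends
      set Q2 : QS ι A B := (Q.swap.ren w v).swap with hQ2
      have q2B : ∀ i b, Q2.atB i b ↔ Q.atB i b := fun i b => Iff.rfl
      have q2v : ∀ i, Q2.atA i v ↔ Q.atA i v ∨ Q.atA i w := fun i =>
        ren_atB_hub (Q := Q.swap) hvw i
      have q2o : ∀ i a, a ≠ v → a ≠ w → (Q2.atA i a ↔ Q.atA i a) := fun i a h1 h2 =>
        ren_atB_other (Q := Q.swap) h1 h2 i
      let r : A → A := fun a => if a = w then v else a
      obtain ⟨SA, SB, g0, g1, g2, g3⟩ := (hcl (n - 1) (by omega)).A1 Q2 (E.erase e) h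
        ((M.erase v).image r) hs hKc (by
          rw [Finset.image_nonempty, Finset.erase_nonempty hvM, Finset.nontrivial_iff_ne_singleton hvM]
          intro h1
          rw [h1, Finset.card_singleton] at hMcard
          omega) (by
          intro a ha
          rw [Finset.mem_image] at ha
          obtain ⟨a', ha', rfl⟩ := ha
          rw [Finset.mem_erase] at ha'
          have hex : ∃ i ∈ E.erase e, Q.atA i a' ∧ Q.atB i h := by
            obtain ⟨i, hi, hia, hib⟩ := hMo a' ha'.2
            by_cases hie : i = e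
            · subst hie
              exact second hE he (by omega) hia hib
            · exact ⟨i, Finset.mem_erase.2 ⟨hie, hi⟩, hia, hib⟩
          obtain ⟨i, hi, hia, hib⟩ := hex
          refine ⟨i, hi, ?_, hib⟩
          by_cases haw : a' = w
          · simp only [r, if_pos haw]
            rw [q2v]; right; rw [← haw]; exact hia
          · simp only [r, if_neg haw]
            rw [q2o i a' ha'.1 haw]; exact hia)
      let SA2 : Finset A := insert v (if v ∈ SA then insert w (SA.erase v) else SA)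
      have hSA2v : v ∈ SA2 := Finset.mem_insert_self _ _
      have hSA2w : v ∈ SA → w ∈ SA2 := by
        intro h1
        simp only [SA2, if_pos h1]
        exact Finset.mem_insert_of_mem (Finset.mem_insert_self _ _)
      have hSA2o : ∀ a ∈ SA, a ∈ SA2 := by
        intro a ha
        by_cases h1 : v ∈ SA
        · by_cases h2 : a = v
          · rw [h2]; exact hSA2v
          · simp only [SA2, if_pos h1]
            exact Finset.mem_insert_of_mem (Finset.mem_insert_of_mem (Finset.mem_erase.2 ⟨h2, ha⟩))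
        · simp only [SA2, if_neg h1]
          exact Finset.mem_insert_of_mem ha
      have hcard : SA2.card ≤ SA.card + 1 := by
        by_cases h1 : v ∈ SA
        · simp only [SA2, if_pos h1]
          have h2 := Finset.card_insert_le v (insert w (SA.erase v))
          have h3 := Finset.card_insert_le w (SA.erase v)
          have h4 := Finset.card_erase_of_mem h1
          have h5 := Finset.card_pos.2 ⟨v, h1⟩
          omega
        · simp only [SA2, if_neg h1]
          exact Finset.card_insert_le v SA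
      have hxx : ∀ a : A, (if a = w then v else a) ∈ SA → a ∈ SA2 := by
        intro a h1
        by_cases h2 : a = w
        · rw [if_pos h2] at h1; rw [h2]; exact hSA2w h1
        · rw [if_neg h2] at h1; exact hSA2o a h1
      refine ⟨SA2, SB, ?_, g1, hit_erase ?_ (Hit.of_atA hev hSA2v), ?_⟩
      · intro a ha
        by_cases h1 : a = v
        · rw [h1]; exact hSA2v
        · apply hxx
          exact g0 (Finset.mem_image.2 ⟨a, Finset.mem_erase.2 ⟨h1, ha⟩, rfl⟩)
      · intro i hi
        rcases g2 i hi with h3 | h3 | h3 | h3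
        · left; exact hxx (Q.p i) h3
        · right; left; exact hxx (Q.q i) h3
        · right; right; left; exact h3
        · right; right; right; exact h3
      · have h1 := Finset.card_image_le (s := M.erase v) (f := r)
        have h2 := Finset.card_erase_of_mem hvM
        omega

theorem step_A0 (hn : 2 ≤ n) (hcl : ∀ j < n, Claims ι A B j) (Q : QS ι A B) (E : Finset ι)
    (h : B) (hE : IsSph Q E) (hc : E.card = n) (hh : ∃ i ∈ E, Q.atB i h) :
    ∃ (SA : Finset A) (SB : Finset B), h ∉ SB ∧ Hit Q E SA SB ∧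
      3 * (SA.card + SB.card) ≤ n + 2 := by
  obtain ⟨e, he, heh⟩ := hh
  have hev : Q.atA e (Q.p e) := Or.inl rfl
  obtain ⟨w, hvw, hew⟩ := other_end hE he (by omega) hev
  obtain ⟨f, hhf, hef⟩ := other_side hE he (by omega) heh
  have R := erase_reg hE he hvw hhf hev hew heh hef
  have hKE : E.erase e ⊆ E := Finset.erase_subset e E
  have hKc : (E.erase e).card = n - 1 := by rw [Finset.card_erase_of_mem he, hc]
  rcases chain (N := n - 1) (fun j hj => hcl j (by omega)) (n - 1) (le_refl _) Q E (E.erase e)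
      _ w h f hE hKE R hKc with ⟨m, t⟩ | ⟨m, t⟩
  · obtain ⟨_, ⟨SA, SB, b0, b1, b2, b3, b4⟩, _, _, ⟨SA', SB', e1, e2, e3, e4⟩⟩ := t
    by_cases hm : m ≤ 0
    · exact ⟨SA, SB, b1, hit_erase b3 (Hit.of_atA hev b0), by
        rw [hKc] at b4; push_cast at *; omega⟩
    · exact ⟨SA', SB', e1, hit_erase e3 (Hit.of_atB hef e2), by
        rw [hKc] at e4; push_cast at *; omega⟩
  · obtain ⟨_, ⟨SA, SB, b0, b1, b2, b3, b4⟩, _, _, ⟨SA', SB', e1, e2, e3, e4⟩⟩ := t
    by_cases hm : m ≤ 3
    · exact ⟨SA, SB, b1, hit_erase b3 (Hit.of_atA hev b0), by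
        rw [hKc] at b4; push_cast at *; omega⟩
    · exact ⟨SA', SB', e1, hit_erase e3 (Hit.of_atB hef e2), by
        rw [hKc] at e4; push_cast at *; omega⟩

theorem step_Af (hn : 2 ≤ n) (hcl : ∀ j < n, Claims ι A B j) (Q : QS ι A B) (E : Finset ι)
    (h : B) (e : ι) (hE : IsSph Q E) (hc : E.card = n) (he : e ∈ E) (heh : Q.atB e h) :
    ∃ (SA : Finset A) (SB : Finset B), h ∉ SB ∧ Hit Q (E.erase e) SA SB ∧
      3 * (SA.card + SB.card) ≤ n + 1 := by
  have hev : Q.atA e (Q.p e) := Or.inl rfl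
  obtain ⟨w, hvw, hew⟩ := other_end hE he (by omega) hev
  obtain ⟨f, hhf, hef⟩ := other_side hE he (by omega) heh
  have R := erase_reg hE he hvw hhf hev hew heh hef
  have hKE : E.erase e ⊆ E := Finset.erase_subset e E
  have hKc : (E.erase e).card = n - 1 := by rw [Finset.card_erase_of_mem he, hc]
  rcases chain (N := n - 1) (fun j hj => hcl j (by omega)) (n - 1) (le_refl _) Q E (E.erase e)
      _ w h f hE hKE R hKc with ⟨m, t⟩ | ⟨m, t⟩
  · obtain ⟨⟨SA, SB, b1, b2, b3, b4⟩, _, _, _, ⟨SA', SB', e1, e2, e3, e4⟩⟩ := t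
    by_cases hm : m ≤ 2
    · exact ⟨SA, SB, b1, b3, by rw [hKc] at b4; push_cast at *; omega⟩
    · exact ⟨SA', SB', e1, e3, by rw [hKc] at e4; push_cast at *; omega⟩
  · obtain ⟨⟨SA, SB, b1, b2, b3, b4⟩, _, _, _, ⟨SA', SB', e1, e2, e3, e4⟩⟩ := t
    by_cases hm : m ≤ 2
    · exact ⟨SA, SB, b1, b3, by rw [hKc] at b4; push_cast at *; omega⟩
    · exact ⟨SA', SB', e1, e3, by rw [hKc] at e4; push_cast at *; omega⟩

end

variable (ι A B) in
/-- All claims hold for every sphere. -/
theorem claims_all (n : ℕ) : Claims ι A B n := by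
  induction n using Nat.strong_induction_on with
  | _ n ih =>
    rcases Nat.lt_or_ge n 2 with h1 | h1
    · interval_cases n
      · exact claims_zero
      · exact claims_one
    · exact ⟨fun Q E h hE hc hh => step_A0 h1 ih Q E h hE hc hh,
        fun Q E h M hE hc hM hMo => step_A1 h1 ih Q E h M hE hc hM hMo,
        fun Q E h e hE hc he hh => step_Af h1 ih Q E h e hE hc he hh⟩

/-- **Theorem A**: in a sphere of quads with a hub `h`, all faces can be hit by at most
`(|E|+2)/3` vertices different from `h`. -/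
theorem theoremA (Q : QS ι A B) (E : Finset ι) (h : B) (hE : IsSph Q E)
    (hh : ∃ i ∈ E, Q.atB i h) :
    ∃ (SA : Finset A) (SB : Finset B), h ∉ SB ∧ Hit Q E SA SB ∧
      3 * (SA.card + SB.card) ≤ E.card + 2 :=
  (claims_all ι A B E.card).A0 Q E h hE rfl hh

/-- the chain lemma for every region -/
theorem chain_all (Q : QS ι A B) (E K : Finset ι) (v z : A) (h f : B) (hE : IsSph Q E)
    (hK : K ⊆ E) (R : IsReg Q K v z h f) :
    (∃ m, TE Q K v z h f m) ∨ (∃ m, TO Q K v z h f m) :=
  chain (N := K.card) (fun j _ => claims_all ι A B j) K.card (le_refl _) Q E K v z h f hE hK R rfl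

end Helper83.PY
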