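import Pool.Agent.Helper83.PY.Make
import Pool.Agent.Helper83.PY.ThmA
import Pool.Agent.Helper68.PY.Iface

/-!
From the combinatorial output of the geometry (`QSys`) to the abstract spheres of quads.
-/

open Finset

set_option linter.unusedSectionVars false
set_option linter.unusedSimpArgs false
set_option linter.unusedVariables false

namespace Helper83.PY

open Pool.Agent.Helper68.PY

variable {M : ℕ} {R : Type} [Fintype R] [DecidableEq R]

/-- lowest height -/
def lo (Q : QSys M R) : Fin M := ⟨0, by have := Q.hM; omega⟩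
/-- highest height -/
def hi (Q : QSys M R) : Fin M := ⟨M - 1, by have := Q.hM; omega⟩

theorem lo_ne_hi (Q : QSys M R) : lo Q ≠ hi Q := by
  have := Q.hM
  unfold lo hi
  intro h
  have h2 := congrArg Fin.val h
  simp only at h2
  omega

/-- the quad system with the outer face `none` -/
def toQS (Q : QSys M R) : QS (Option R) (Fin M) (Fin M) where
  p := fun i => match i with
    | none => lo Q
    | some r => ⟨Q.ad r, (Q.ad_lt r).trans (Q.au_lt r)⟩
  q := fun i => match i with
    | none => hi Q
    | some r => ⟨Q.au r, Q.au_lt r⟩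
  x := fun i => match i with
    | none => lo Q
    | some r => ⟨Q.bd r, (Q.bd_lt r).trans (Q.bu_lt r)⟩
  y := fun i => match i with
    | none => hi Q
    | some r => ⟨Q.bu r, Q.bu_lt r⟩

theorem toQS_atA (Q : QSys M R) (r : R) (a : Fin M) :
    (toQS Q).atA (some r) a ↔ (Q.ad r = a ∨ Q.au r = a) := by
  unfold QS.atA toQS
  simp only [Fin.ext_iff]

theorem toQS_atB (Q : QSys M R) (r : R) (b : Fin M) :
    (toQS Q).atB (some r) b ↔ (Q.bd r = b ∨ Q.bu r = b) := by
  unfold QS.atB toQS
  simp only [Fin.ext_iff]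

theorem toQS_inc_some (Q : QSys M R) (r : R) (a b : Fin M) :
    (toQS Q).inc (some r) a b
      = if (Q.ad r = a ∨ Q.au r = a) ∧ (Q.bd r = b ∨ Q.bu r = b) then 1 else 0 := by
  unfold QS.inc toQS
  simp only [Fin.ext_iff]
  have h1 := Q.ad_lt r
  have h2 := Q.bd_lt r
  by_cases e1 : Q.ad r = a <;> by_cases e2 : Q.au r = a <;> by_cases e3 : Q.bd r = b <;>
    by_cases e4 : Q.bu r = b <;> simp [e1, e2, e3, e4] <;> omega

theorem inc_ite {ι A B : Type*} [DecidableEq ι] [DecidableEq A] [DecidableEq B] (Q : QS ι A B)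
    (i : ι) (hp : Q.p i ≠ Q.q i) (hx : Q.x i ≠ Q.y i) (a : A) (b : B) (P : Prop) [Decidable P]
    (hP : P ↔ (Q.atA i a ∧ Q.atB i b)) : Q.inc i a b = if P then 1 else 0 := by
  by_cases h : P
  · rw [if_pos h]
    obtain ⟨h1, h2⟩ := hP.1 h
    unfold QS.inc
    have e1 : (if Q.p i = a then 1 else 0) + (if Q.q i = a then 1 else 0) = 1 := by
      rcases h1 with h1 | h1
      · have : ¬ Q.q i = a := fun h3 => hp (h1.trans h3.symm)
        simp [h1, this]
      · have : ¬ Q.p i = a := fun h3 => hp (h3.trans h1.symm)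
        simp [h1, this]
    have e2 : (if Q.x i = b then 1 else 0) + (if Q.y i = b then 1 else 0) = 1 := by
      rcases h2 with h1 | h1
      · have : ¬ Q.y i = b := fun h3 => hx (h1.trans h3.symm)
        simp [h1, this]
      · have : ¬ Q.x i = b := fun h3 => hx (h3.trans h1.symm)
        simp [h1, this]
    rw [e1, e2]
  · rw [if_neg h]
    exact (Q.inc_eq_zero i a b).2 (fun h1 => h (hP.2 h1))

theorem corner_iff (Q : QSys M R) (a : Fin M) :
    (a.val = 0 ∨ a.val + 1 = M) ↔ (lo Q = a ∨ hi Q = a) := by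
  have hM := Q.hM
  unfold lo hi
  rw [Fin.ext_iff, Fin.ext_iff]
  simp only
  omega

theorem toQS_inc_none (Q : QSys M R) (a b : Fin M) :
    (toQS Q).inc none a b
      = if (a.val = 0 ∨ a.val + 1 = M) ∧ (b.val = 0 ∨ b.val + 1 = M) then 1 else 0 := by
  apply inc_ite
  · exact lo_ne_hi Q
  · exact lo_ne_hi Q
  · rw [corner_iff Q a, corner_iff Q b]; exact Iff.rfl

theorem cnt_some_image (Q : QSys M R) (S : Finset R) (a b : Fin M) :
    (toQS Q).cnt (S.image some) a b
      = (S.filter (fun r => (Q.ad r = a ∨ Q.au r = a) ∧ (Q.bd r = b ∨ Q.bu r = b))).card := by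
  unfold QS.cnt
  rw [Finset.sum_image (fun x _ y _ h => Option.some_injective R h), Finset.card_filter]
  exact Finset.sum_congr rfl (fun r _ => toQS_inc_some Q r a b)

theorem univ_option (R : Type) [Fintype R] [DecidableEq R] :
    (Finset.univ : Finset (Option R)) = insert none (Finset.univ.image some) := by
  ext i
  rcases i with _ | r <;> simp

theorem cnt_insert_none (Q : QSys M R) (S : Finset R) (a b : Fin M) :
    (toQS Q).cnt (insert none (S.image some)) a b
      = (toQS Q).inc none a b + (toQS Q).cnt (S.image some) a b := by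
  unfold QS.cnt
  rw [Finset.sum_insert (by simp)]

theorem toQS_sph (Q : QSys M R) : IsSph (toQS Q) Finset.univ := by
  have hM := Q.hM
  apply IsSph.mk'
  · exact ⟨none⟩
  · intro a b
    rw [univ_option, cnt_insert_none, cnt_some_image, toQS_inc_none]
    by_cases h : (a.val = 0 ∨ a.val + 1 = M) ∧ (b.val = 0 ∨ b.val + 1 = M)
    · rw [if_pos h, Q.corner a.val b.val h.1 h.2]; right; rfl
    · rw [if_neg h]
      rcases Q.two a.val b.val a.2 b.2 h with h1 | h1
      · left; rw [h1]
      · right; rw [h1]
  · intro S hS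
    -- split S
    let T : Finset R := Finset.univ.filter (fun r => some r ∈ S)
    have hST : S = if none ∈ S then insert none (T.image some) else T.image some := by
      by_cases h : none ∈ S
      · rw [if_pos h]
        ext i
        rcases i with _ | r <;> simp [T, h]
      · rw [if_neg h]
        ext i
        rcases i with _ | r <;> simp [T, h]
    have hcnt : ∀ a b, (toQS Q).cnt S a b
        = (if none ∈ S then (toQS Q).inc none a b else 0) + (toQS Q).cnt (T.image some) a b := by
      intro a b
      by_cases h : none ∈ S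
      · rw [if_pos h] at hST ⊢
        conv_lhs => rw [hST]
        exact cnt_insert_none Q T a b
      · rw [if_neg h] at hST ⊢
        conv_lhs => rw [hST]
        rw [zero_add]
    have hT := Q.conn T (by
      intro a b ha hb hab
      have h1 := hS ⟨a, ha⟩ ⟨b, hb⟩
      unfold QS.bd at h1
      have h3 : (toQS Q).inc none ⟨a, ha⟩ ⟨b, hb⟩ = 0 := by
        rw [toQS_inc_none]; exact if_neg hab
      rw [hcnt, h3] at h1
      have h2 : (if none ∈ S then 0 else 0) = 0 := by simp
      rw [h2, zero_add, cnt_some_image] at h1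
      exact (ZMod.natCast_eq_zero_iff_even).1 h1)
    have hcor := hS (lo Q) (lo Q)
    unfold QS.bd at hcor
    have hc0 : (toQS Q).inc none (lo Q) (lo Q) = 1 := by
      rw [toQS_inc_none]; exact if_pos ⟨Or.inl rfl, Or.inl rfl⟩
    rw [hcnt, hc0, cnt_some_image] at hcor
    rcases hT with h1 | h1
    · left
      rw [h1] at hcor
      have h2 : none ∉ S := by
        intro h3
        rw [if_pos h3] at hcor
        simp at hcor
      rw [hST, if_neg h2, h1]
      rfl
    · right
      rw [h1] at hcor
      have h2 : none ∈ S := by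
        by_contra h3
        rw [if_neg h3, Q.corner (lo Q).val (lo Q).val (Or.inl rfl) (Or.inl rfl)] at hcor
        simp at hcor
      rw [hST, if_pos h2, h1, ← univ_option]
  · intro α β h
    have hg := Q.gconn (X := ZMod 2)
      (fun a => if h : a < M then α ⟨a, h⟩ else 0) (fun b => if h : b < M then β ⟨b, h⟩ else 0)
      (by
        intro r a b ha hb
        have ha' : a < M := by
          have h1 := Q.ad_lt r; have h2 := Q.au_lt r; rcases ha with h3 | h3 <;> omega
        have hb' : b < M := by
          have h1 := Q.bd_lt r; have h2 := Q.bu_lt r; rcases hb with h3 | h3 <;> omega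
        simp only [ha', hb', dif_pos]
        apply h
        rw [QS.cnt_ne_zero]
        exact ⟨some r, Finset.mem_univ _, (toQS_atA Q r _).2 ha, (toQS_atB Q r _).2 hb⟩)
    have hM1 : M - 1 < M := by omega
    have hlink : α ⟨M - 1, hM1⟩ = β ⟨M - 1, hM1⟩ := by
      apply h
      rw [QS.cnt_ne_zero]
      exact ⟨none, Finset.mem_univ _, Or.inr rfl, Or.inr rfl⟩
    refine ⟨α ⟨M - 1, hM1⟩, ?_, ?_⟩
    · intro a
      have h1 := (hg a.val 0 a.2 (by omega)).1
      simpa only [a.2, hM1, dif_pos] using h1
    · intro b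
      have h1 := (hg 0 b.val (by omega) b.2).2
      rw [hlink]
      simpa only [b.2, hM1, dif_pos] using h1
  · rw [Fintype.card_option, Fintype.card_fin]
    have := Q.card
    omega

theorem toQS_reg (Q : QSys M R) :
    IsReg (toQS Q) (Finset.univ.erase none) (lo Q) (hi Q) (lo Q) (hi Q) :=
  erase_reg (toQS_sph Q) (Finset.mem_univ _) (lo_ne_hi Q) (lo_ne_hi Q) (Or.inl rfl) (Or.inr rfl)
    (Or.inl rfl) (Or.inr rfl)

/-- the two hubs have no other common neighbour -/
theorem toQS_block (Q : QSys M R) (a : Fin M) (h1 : a ≠ lo Q) (h2 : a ≠ hi Q) :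
    (toQS Q).cnt (Finset.univ.erase none) a (lo Q) = 0 ∨
      (toQS Q).cnt (Finset.univ.erase none) a (hi Q) = 0 := by
  have hM := Q.hM
  by_contra hcon
  push Not at hcon
  obtain ⟨c1, c2⟩ := hcon
  obtain ⟨i, hi1, hi2, hi3⟩ := (QS.cnt_ne_zero _ _ _ _).1 c1
  obtain ⟨j, hj1, hj2, hj3⟩ := (QS.cnt_ne_zero _ _ _ _).1 c2
  rw [Finset.mem_erase] at hi1 hj1
  rcases i with _ | r
  · exact hi1.1 rfl
  rcases j with _ | s
  · exact hj1.1 rfl
  rw [toQS_atA] at hi2 hj2
  rw [toQS_atB] at hi3 hj3
  have e1 : Q.bd r = 0 := by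
    have := Q.bd_lt r
    simp only [lo] at hi3
    omega
  have e2 : Q.bu s + 1 = M := by
    have g1 := Q.bd_lt s
    have g2 := Q.bu_lt s
    simp only [hi] at hj3
    omega
  rcases Q.oppB r s a.val hi2 hj2 e1 e2 with h3 | h3
  · apply h1; apply Fin.ext; exact h3
  · apply h2; apply Fin.ext; simp only [hi]; omega

end Helper83.PY
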