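import Mathlib

/-!
Abstract quadrangulations of the sphere (helper83, project PY, MP_079761_co).

A quad system `Q : QS ι A B`: every index `i : ι` (a face of the quadrangulation, an edge of the
graph `H`) has two ends `p i, q i : A` and two sides `x i, y i : B`; the face is the 4-cycle
`p, x, q, y`.  `Q.cnt S a b` counts (with multiplicity) the faces of `S` containing the pair `a b`,
`Q.bd S a b` is its class mod 2.

`IsSph Q E`: the faces of `E` form a sphere (simple quadrangulation).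
-/

open Finset

set_option linter.unusedSectionVars false

namespace Helper83.PY

/-- A system of quads: two ends and two sides for every index. -/
structure QS (ι A B : Type*) where
  p : ι → A
  q : ι → A
  x : ι → B
  y : ι → B

namespace QS

variable {ι A B : Type*} [DecidableEq ι] [DecidableEq A] [DecidableEq B]

/-- `a` is an end of `i`. -/
def atA (Q : QS ι A B) (i : ι) (a : A) : Prop := Q.p i = a ∨ Q.q i = a

/-- `b` is a side of `i`. -/
def atB (Q : QS ι A B) (i : ι) (b : B) : Prop := Q.x i = b ∨ Q.y i = b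

/-- multiplicity of the pair `a b` in the face `i`. -/
def inc (Q : QS ι A B) (i : ι) (a : A) (b : B) : ℕ :=
  ((if Q.p i = a then 1 else 0) + (if Q.q i = a then 1 else 0)) *
  ((if Q.x i = b then 1 else 0) + (if Q.y i = b then 1 else 0))

/-- number of faces of `S` containing the pair `a b`, with multiplicity. -/
def cnt (Q : QS ι A B) (S : Finset ι) (a : A) (b : B) : ℕ := ∑ i ∈ S, Q.inc i a b

/-- boundary mod 2. -/
def bd (Q : QS ι A B) (S : Finset ι) (a : A) (b : B) : ZMod 2 := (Q.cnt S a b : ZMod 2)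

/-- exchange the roles of the two classes. -/
def swap (Q : QS ι A B) : QS ι B A := ⟨Q.x, Q.y, Q.p, Q.q⟩

@[simp] theorem swap_swap (Q : QS ι A B) : Q.swap.swap = Q := rfl

theorem swap_inc (Q : QS ι A B) (i : ι) (a : A) (b : B) : Q.swap.inc i b a = Q.inc i a b := by
  unfold inc swap; simp only; ring

theorem swap_cnt (Q : QS ι A B) (S : Finset ι) (a : A) (b : B) :
    Q.swap.cnt S b a = Q.cnt S a b := by
  unfold cnt; exact Finset.sum_congr rfl (fun i _ => Q.swap_inc i a b)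

theorem swap_bd (Q : QS ι A B) (S : Finset ι) (a : A) (b : B) :
    Q.swap.bd S b a = Q.bd S a b := by
  unfold bd; rw [swap_cnt]

theorem swap_atA (Q : QS ι A B) (i : ι) (b : B) : Q.swap.atA i b ↔ Q.atB i b := Iff.rfl
theorem swap_atB (Q : QS ι A B) (i : ι) (a : A) : Q.swap.atB i a ↔ Q.atA i a := Iff.rfl

theorem inc_eq_zero (Q : QS ι A B) (i : ι) (a : A) (b : B) :
    Q.inc i a b = 0 ↔ ¬ (Q.atA i a ∧ Q.atB i b) := by
  unfold inc atA atB
  by_cases h1 : Q.p i = a <;> by_cases h2 : Q.q i = a <;> by_cases h3 : Q.x i = b <;>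
    by_cases h4 : Q.y i = b <;> simp [h1, h2, h3, h4]

theorem cnt_eq_zero (Q : QS ι A B) (S : Finset ι) (a : A) (b : B) :
    Q.cnt S a b = 0 ↔ ∀ i ∈ S, ¬ (Q.atA i a ∧ Q.atB i b) := by
  unfold cnt
  rw [Finset.sum_eq_zero_iff]
  constructor
  · intro h i hi; exact (Q.inc_eq_zero i a b).1 (h i hi)
  · intro h i hi; exact (Q.inc_eq_zero i a b).2 (h i hi)

theorem cnt_ne_zero (Q : QS ι A B) (S : Finset ι) (a : A) (b : B) :
    Q.cnt S a b ≠ 0 ↔ ∃ i ∈ S, Q.atA i a ∧ Q.atB i b := by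
  rw [Ne, cnt_eq_zero]; push Not; rfl

theorem cnt_mono (Q : QS ι A B) {S T : Finset ι} (h : S ⊆ T) (a : A) (b : B) :
    Q.cnt S a b ≤ Q.cnt T a b :=
  Finset.sum_le_sum_of_subset h

theorem cnt_sdiff (Q : QS ι A B) {S T : Finset ι} (h : S ⊆ T) (a : A) (b : B) :
    Q.cnt (T \ S) a b + Q.cnt S a b = Q.cnt T a b :=
  Finset.sum_sdiff h

theorem bd_sdiff (Q : QS ι A B) {S T : Finset ι} (h : S ⊆ T) (a : A) (b : B) :
    Q.bd (T \ S) a b = Q.bd T a b + Q.bd S a b := by
  have := Q.cnt_sdiff h a b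
  unfold bd
  rw [← this]; push_cast
  have h2 : ((Q.cnt S a b : ℕ) : ZMod 2) + (Q.cnt S a b : ℕ) = 0 := CharTwo.add_self_eq_zero _
  rw [add_assoc, h2, add_zero]

theorem bd_empty (Q : QS ι A B) (a : A) (b : B) : Q.bd ∅ a b = 0 := by
  simp [bd, cnt]

theorem bd_eq_zero_of_cnt (Q : QS ι A B) {S : Finset ι} {a : A} {b : B} (h : Q.cnt S a b = 0) :
    Q.bd S a b = 0 := by simp [bd, h]

theorem sum_inc_A [Fintype A] (Q : QS ι A B) (i : ι) (b : B) :
    (∑ a, (Q.inc i a b : ZMod 2)) = 0 := by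
  unfold inc
  push_cast
  rw [← Finset.sum_mul, Finset.sum_add_distrib]
  simp only [Finset.sum_ite_eq, Finset.mem_univ, if_true]
  have : (1 : ZMod 2) + 1 = 0 := by decide
  rw [this, zero_mul]

theorem sum_bd_A [Fintype A] (Q : QS ι A B) (S : Finset ι) (b : B) :
    (∑ a, Q.bd S a b) = 0 := by
  unfold bd cnt
  push_cast
  rw [Finset.sum_comm]
  exact Finset.sum_eq_zero (fun i _ => Q.sum_inc_A i b)

theorem sum_bd_B [Fintype B] (Q : QS ι A B) (S : Finset ι) (a : A) :
    (∑ b, Q.bd S a b) = 0 := by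
  have := Q.swap.sum_bd_A S a
  simpa only [swap_bd] using this

end QS

variable {ι A B : Type*} [DecidableEq ι] [DecidableEq A] [DecidableEq B] [Fintype A] [Fintype B]

/-- The quads of `E` form a sphere. -/
structure IsSph (Q : QS ι A B) (E : Finset ι) : Prop where
  ne : E.Nonempty
  two : ∀ a b, Q.cnt E a b = 0 ∨ Q.cnt E a b = 2
  conn : ∀ S ⊆ E, (∀ a b, Q.bd S a b = 0) → S = ∅ ∨ S = E
  linkB : ∀ b, ∀ S ⊆ E, (∀ a, Q.bd S a b = 0) →
    (∀ i ∈ E, Q.atB i b → i ∈ S) ∨ (∀ i ∈ S, ¬ Q.atB i b)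
  linkA : ∀ a, ∀ S ⊆ E, (∀ b, Q.bd S a b = 0) →
    (∀ i ∈ E, Q.atA i a → i ∈ S) ∨ (∀ i ∈ S, ¬ Q.atA i a)
  ml : ∀ Z : A → B → ZMod 2, (∀ a b, Q.cnt E a b = 0 → Z a b = 0) → (∀ a, ∑ b, Z a b = 0) →
    (∀ b, ∑ a, Z a b = 0) → ∃ S ⊆ E, ∀ a b, Q.bd S a b = Z a b

namespace IsSph

theorem swap {Q : QS ι A B} {E : Finset ι} (h : IsSph Q E) : IsSph Q.swap E where
  ne := h.ne
  two := fun b a => by rw [QS.swap_cnt]; exact h.two a b
  conn := fun S hS h0 => h.conn S hS (fun a b => by rw [← QS.swap_bd]; exact h0 b a)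
  linkB := fun a S hS h0 => h.linkA a S hS (fun b => by rw [← QS.swap_bd]; exact h0 b)
  linkA := fun b S hS h0 => h.linkB b S hS (fun a => by rw [← QS.swap_bd]; exact h0 a)
  ml := fun Z h0 h1 h2 => by
    obtain ⟨S, hS, h3⟩ := h.ml (fun a b => Z b a)
      (fun a b hab => h0 b a (by rw [QS.swap_cnt]; exact hab)) h2 h1
    exact ⟨S, hS, fun b a => by rw [QS.swap_bd]; exact h3 a b⟩

theorem bd_all {Q : QS ι A B} {E : Finset ι} (h : IsSph Q E) (a : A) (b : B) :
    Q.bd E a b = 0 := by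
  unfold QS.bd
  rcases h.two a b with h0 | h0 <;> rw [h0]
  · simp
  · decide

end IsSph

/-- the boundary of a region with ends `v z` and hubs `h f`. -/
def del (v z : A) (h f : B) (a : A) (b : B) : ZMod 2 :=
  if (a = v ∨ a = z) ∧ (b = h ∨ b = f) then 1 else 0

/-- `K` is a region of the sphere with ends `v z` and hubs `h f`. -/
structure IsReg (Q : QS ι A B) (K : Finset ι) (v z : A) (h f : B) : Prop where
  vz : v ≠ z
  hf : h ≠ f
  bd : ∀ a b, Q.bd K a b = del v z h f a b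

theorem zmod2_cases (x : ZMod 2) : x = 0 ∨ x = 1 := by
  revert x; decide

end Helper83.PY
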