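import Pool.Agent.Helper83.PY.Region

open Finset

set_option linter.unusedSectionVars false
set_option linter.unusedSimpArgs false
set_option linter.unusedVariables false

namespace Helper83.PY

variable {ι A B : Type*} [DecidableEq ι] [DecidableEq A] [DecidableEq B] [Fintype A] [Fintype B]

/-- rename the side `f` to `h`. -/
def QS.ren (Q : QS ι A B) (f h : B) : QS ι A B :=
  ⟨Q.p, Q.q, fun i => if Q.x i = f then h else Q.x i, fun i => if Q.y i = f then h else Q.y i⟩

section
variable {Q : QS ι A B} {E K : Finset ι} {v z : A} {h f : B}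

theorem ren_atA (Q : QS ι A B) (f h : B) (i : ι) (a : A) : (Q.ren f h).atA i a ↔ Q.atA i a :=
  Iff.rfl

theorem ren_atB_hub (hf : h ≠ f) (i : ι) : (Q.ren f h).atB i h ↔ Q.atB i h ∨ Q.atB i f := by
  unfold QS.atB QS.ren
  simp only
  by_cases h1 : Q.x i = f <;> by_cases h2 : Q.y i = f <;> simp [h1, h2]

theorem ren_atB_f (hf : h ≠ f) (i : ι) : ¬ (Q.ren f h).atB i f := by
  unfold QS.atB QS.ren
  simp only
  by_cases h1 : Q.x i = f <;> by_cases h2 : Q.y i = f <;> simp [h1, h2, hf]

theorem ren_atB_other {b : B} (hb : b ≠ h) (hb2 : b ≠ f) (i : ι) :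
    (Q.ren f h).atB i b ↔ Q.atB i b := by
  unfold QS.atB QS.ren
  simp only
  by_cases h1 : Q.x i = f <;> by_cases h2 : Q.y i = f <;>
    simp [h1, h2, hb, hb2, Ne.symm hb, Ne.symm hb2]

theorem ren_inc_hub (hf : h ≠ f) (i : ι) (a : A) :
    (Q.ren f h).inc i a h = Q.inc i a h + Q.inc i a f := by
  unfold QS.inc QS.ren
  simp only
  rw [← mul_add]
  congr 1
  by_cases h1 : Q.x i = f
  · have h1' : ¬ Q.x i = h := by rw [h1]; exact Ne.symm hf
    by_cases h2 : Q.y i = f
    · simp [h1, h2, Ne.symm hf]
    · by_cases h3 : Q.y i = h <;> simp [h1, h2, h3, hf, Ne.symm hf]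
  · by_cases h2 : Q.y i = f
    · by_cases h3 : Q.x i = h <;> simp [h1, h2, h3, hf, Ne.symm hf]
    · by_cases h3 : Q.x i = h <;> by_cases h4 : Q.y i = h <;> simp [h1, h2, h3, h4, hf]

theorem ren_inc_f (hf : h ≠ f) (i : ι) (a : A) : (Q.ren f h).inc i a f = 0 := by
  rw [QS.inc_eq_zero]; intro h1; exact ren_atB_f hf i h1.2

theorem ren_inc_other {b : B} (hb : b ≠ h) (hb2 : b ≠ f) (i : ι) (a : A) :
    (Q.ren f h).inc i a b = Q.inc i a b := by
  unfold QS.inc QS.ren
  simp only
  congr 1
  by_cases h1 : Q.x i = f <;> by_cases h2 : Q.y i = f <;>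
    simp [h1, h2, Ne.symm hb, Ne.symm hb2]

theorem ren_cnt_hub (hf : h ≠ f) (S : Finset ι) (a : A) :
    (Q.ren f h).cnt S a h = Q.cnt S a h + Q.cnt S a f := by
  unfold QS.cnt
  rw [← Finset.sum_add_distrib]
  exact Finset.sum_congr rfl (fun i _ => ren_inc_hub hf i a)

theorem ren_cnt_f (hf : h ≠ f) (S : Finset ι) (a : A) : (Q.ren f h).cnt S a f = 0 :=
  Finset.sum_eq_zero (fun i _ => ren_inc_f hf i a)

theorem ren_cnt_other {b : B} (hb : b ≠ h) (hb2 : b ≠ f) (S : Finset ι) (a : A) :
    (Q.ren f h).cnt S a b = Q.cnt S a b :=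
  Finset.sum_congr rfl (fun i _ => ren_inc_other hb hb2 i a)

theorem ren_bd_hub (hf : h ≠ f) (S : Finset ι) (a : A) :
    (Q.ren f h).bd S a h = Q.bd S a h + Q.bd S a f := by
  unfold QS.bd; rw [ren_cnt_hub hf]; push_cast; rfl

theorem ren_bd_other {b : B} (hb : b ≠ h) (hb2 : b ≠ f) (S : Finset ι) (a : A) :
    (Q.ren f h).bd S a b = Q.bd S a b := by
  unfold QS.bd; rw [ren_cnt_other hb hb2]

/-- A subset of a block region whose renamed boundary vanishes on the hub column: the boundary on
the two hub columns is zero, or equal to that of `K`. -/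
theorem hub_col_cases (hE : IsSph Q E) (hK : K ⊆ E) (R : IsReg Q K v z h f)
    (hbl : ∀ a, a ≠ v → a ≠ z → Q.cnt K a h = 0 ∨ Q.cnt K a f = 0) {S : Finset ι} (hS : S ⊆ K)
    (h0 : ∀ a, Q.bd S a h + Q.bd S a f = 0) :
    (∀ a, Q.bd S a h = 0 ∧ Q.bd S a f = 0) ∨
      (∀ a, Q.bd S a h = del v z h f a h ∧ Q.bd S a f = del v z h f a f) := by
  have hz0 : ∀ a b, Q.cnt K a b = 0 → Q.bd S a b = 0 := by
    intro a b h1
    have := Q.cnt_mono hS a b
    exact Q.bd_eq_zero_of_cnt (by omega)
  have h1 : ∀ a, a ≠ v → a ≠ z → Q.bd S a h = 0 ∧ Q.bd S a f = 0 := by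
    intro a ha1 ha2
    have h2 := h0 a
    rcases hbl a ha1 ha2 with h3 | h3
    · have h4 := hz0 a h h3
      rw [h4, zero_add] at h2
      exact ⟨h4, h2⟩
    · have h4 := hz0 a f h3
      rw [h4, add_zero] at h2
      exact ⟨h2, h4⟩
  have hcol : Q.bd S v h + Q.bd S z h = 0 := by
    have h2 := Q.sum_bd_A S h
    have h3 : ∑ a, Q.bd S a h = ∑ a ∈ ({v, z} : Finset A), Q.bd S a h := by
      symm
      apply Finset.sum_subset (Finset.subset_univ _)
      intro a _ ha
      simp only [Finset.mem_insert, Finset.mem_singleton, not_or] at ha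
      exact (h1 a ha.1 ha.2).1
    rw [h3, Finset.sum_pair R.vz] at h2
    exact h2
  have e1 : Q.bd S v f = Q.bd S v h := (CharTwo.add_eq_zero.1 (h0 v)).symm
  have e2 : Q.bd S z f = Q.bd S z h := (CharTwo.add_eq_zero.1 (h0 z)).symm
  have e3 : Q.bd S z h = Q.bd S v h := (CharTwo.add_eq_zero.1 hcol).symm
  rcases zmod2_cases (Q.bd S v h) with hv | hv
  · left
    intro a
    by_cases ha : a = v
    · subst ha; exact ⟨hv, by rw [e1]; exact hv⟩
    · by_cases ha2 : a = z
      · subst ha2; exact ⟨by rw [e3]; exact hv, by rw [e2, e3]; exact hv⟩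
      · exact h1 a ha ha2
  · right
    intro a
    by_cases ha : a = v
    · subst ha; rw [e1, hv, del_self₁, del_self₂]; exact ⟨rfl, rfl⟩
    · by_cases ha2 : a = z
      · subst ha2; rw [e2, e3, hv, del_self₃, del_self₄]; exact ⟨rfl, rfl⟩
      · rw [(h1 a ha ha2).1, (h1 a ha ha2).2, del_A ha ha2, del_A ha ha2]; exact ⟨rfl, rfl⟩

/-- Identification of the two hubs of a region without other common neighbours gives a sphere. -/
theorem block_sph (hE : IsSph Q E) (hK : K ⊆ E) (R : IsReg Q K v z h f)
    (hbl : ∀ a, a ≠ v → a ≠ z → Q.cnt K a h = 0 ∨ Q.cnt K a f = 0) :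
    IsSph (Q.ren f h) K where
  ne := Finset.nonempty_iff_ne_empty.2 (reg_ne_empty R)
  two := by
    intro a b
    by_cases hb : b = h
    · subst hb
      rw [ren_cnt_hub R.hf]
      by_cases ha : a = v ∨ a = z
      · have h1 : Q.cnt K a b = 1 := cnt_of_bd_one hE hK (by rw [R.bd]; simp [del, ha])
        have h2 : Q.cnt K a f = 1 := cnt_of_bd_one hE hK (by rw [R.bd]; simp [del, ha])
        omega
      · push Not at ha
        have h1 : Q.cnt K a b = 0 ∨ Q.cnt K a b = 2 :=
          cnt_of_bd_zero hE hK (by rw [R.bd]; exact del_A ha.1 ha.2 _)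
        have h2 : Q.cnt K a f = 0 ∨ Q.cnt K a f = 2 :=
          cnt_of_bd_zero hE hK (by rw [R.bd]; exact del_A ha.1 ha.2 _)
        have h3 := hbl a ha.1 ha.2
        omega
    · by_cases hb2 : b = f
      · subst hb2; left; exact ren_cnt_f R.hf K a
      · rw [ren_cnt_other hb hb2]
        exact cnt_of_bd_zero hE hK (by rw [R.bd]; exact del_B hb hb2 _)
  conn := by
    intro S hS h0
    have h1 : ∀ a, Q.bd S a h + Q.bd S a f = 0 := fun a => by
      rw [← ren_bd_hub R.hf]; exact h0 a h
    have h2 : ∀ a b, b ≠ h → b ≠ f → Q.bd S a b = 0 := fun a b hb hb2 => by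
      rw [← ren_bd_other hb hb2]; exact h0 a b
    rcases hub_col_cases hE hK R hbl hS h1 with h3 | h3
    · left
      apply reg_sub_zero hE hK R hS
      intro a b
      by_cases hb : b = h
      · subst hb; exact (h3 a).1
      · by_cases hb2 : b = f
        · subst hb2; exact (h3 a).2
        · exact h2 a b hb hb2
    · right
      apply reg_sub_full hE hK R hS
      intro a b
      by_cases hb : b = h
      · subst hb; exact (h3 a).1
      · by_cases hb2 : b = f
        · subst hb2; exact (h3 a).2
        · rw [h2 a b hb hb2, del_B hb hb2]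
  linkB := by
    intro b S hS h0
    by_cases hb : b = h
    · subst hb
      have h1 : ∀ a, Q.bd S a b + Q.bd S a f = 0 := fun a => by
        rw [← ren_bd_hub R.hf]; exact h0 a
      rcases hub_col_cases hE hK R hbl hS h1 with h3 | h3
      · right
        have h4 := reg_link_hub hE hK R hS (Or.inl rfl) (fun a => (h3 a).1)
        have h5 := reg_link_hub hE hK R hS (Or.inr rfl) (fun a => (h3 a).2)
        intro i hi h6
        rcases (ren_atB_hub R.hf i).1 h6 with h7 | h7
        · exact h4 i hi h7
        · exact h5 i hi h7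
      · left
        have h4 := reg_link_hub hE hK R (Finset.sdiff_subset : K \ S ⊆ K) (Or.inl rfl)
          (fun a => by rw [Q.bd_sdiff hS, R.bd, (h3 a).1]; exact CharTwo.add_self_eq_zero _)
        have h5 := reg_link_hub hE hK R (Finset.sdiff_subset : K \ S ⊆ K) (Or.inr rfl)
          (fun a => by rw [Q.bd_sdiff hS, R.bd, (h3 a).2]; exact CharTwo.add_self_eq_zero _)
        intro i hi h6
        by_contra h7
        have h8 : i ∈ K \ S := Finset.mem_sdiff.2 ⟨hi, h7⟩
        rcases (ren_atB_hub R.hf i).1 h6 with h9 | h9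
        · exact h4 i h8 h9
        · exact h5 i h8 h9
    · by_cases hb2 : b = f
      · subst hb2
        right
        intro i _
        exact ren_atB_f R.hf i
      · have h1 : ∀ a, Q.bd S a b = 0 := fun a => by
          rw [← ren_bd_other hb hb2]; exact h0 a
        rcases hE.linkB b S (hS.trans hK) h1 with h3 | h3
        · left
          intro i hi h4
          exact h3 i (hK hi) ((ren_atB_other hb hb2 i).1 h4)
        · right
          intro i hi h4
          exact h3 i hi ((ren_atB_other hb hb2 i).1 h4)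
  linkA := by
    intro a S hS h0
    have h1 : Q.bd S a h + Q.bd S a f = 0 := by
      rw [← ren_bd_hub R.hf]; exact h0 h
    have h2 : ∀ b, b ≠ h → b ≠ f → Q.bd S a b = 0 := fun b hb hb2 => by
      rw [← ren_bd_other hb hb2]; exact h0 b
    have h3 : Q.bd S a f = Q.bd S a h := (CharTwo.add_eq_zero.1 h1).symm
    by_cases ha : a = v ∨ a = z
    · rcases zmod2_cases (Q.bd S a h) with h4 | h4
      · right
        apply reg_link_end hE hK R hS ha
        intro b
        by_cases hb : b = h
        · subst hb; exact h4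
        · by_cases hb2 : b = f
          · subst hb2; rw [h3]; exact h4
          · exact h2 b hb hb2
      · left
        have h5 := reg_link_end hE hK R (Finset.sdiff_subset : K \ S ⊆ K) ha (by
          intro b
          rw [Q.bd_sdiff hS, R.bd]
          have e : (1 : ZMod 2) + 1 = 0 := by decide
          by_cases hb : b = h
          · subst hb; rw [h4]; simp [del, ha, e]
          · by_cases hb2 : b = f
            · subst hb2; rw [h3, h4]; simp [del, ha, e]
            · rw [h2 b hb hb2, del_B hb hb2, add_zero])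
        intro i hi h6
        by_contra h7
        exact h5 i (Finset.mem_sdiff.2 ⟨hi, h7⟩) h6
    · push Not at ha
      have h4 : ∀ b, Q.bd S a b = 0 := by
        intro b
        have hz0 : ∀ b, Q.cnt K a b = 0 → Q.bd S a b = 0 := by
          intro b h1
          have := Q.cnt_mono hS a b
          exact Q.bd_eq_zero_of_cnt (by omega)
        by_cases hb : b = h
        · subst hb
          rcases hbl a ha.1 ha.2 with h5 | h5
          · exact hz0 _ h5
          · rw [← h3]; exact hz0 _ h5
        · by_cases hb2 : b = f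
          · subst hb2
            rcases hbl a ha.1 ha.2 with h5 | h5
            · rw [h3]; exact hz0 _ h5
            · exact hz0 _ h5
          · exact h2 b hb hb2
      rcases hE.linkA a S (hS.trans hK) h4 with h5 | h5
      · left; intro i hi h6; exact h5 i (hK hi) h6
      · right; exact h5
  ml := by
    intro Z hZs hZr hZc
    have hvz := R.vz
    have hhf := R.hf
    -- lift of Z
    let Z1 : A → B → ZMod 2 := fun a b =>
      if b = h then (if Q.cnt K a h = 0 then 0 else Z a h)
      else if b = f then (if Q.cnt K a h = 0 then Z a h else 0)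
      else Z a b
    have hZ1h : ∀ a, Z1 a h = if Q.cnt K a h = 0 then 0 else Z a h := fun a => by simp [Z1]
    have hZ1f : ∀ a, Z1 a f = if Q.cnt K a h = 0 then Z a h else 0 := fun a => by
      simp [Z1, Ne.symm hhf]
    have hZ1o : ∀ a b, b ≠ h → b ≠ f → Z1 a b = Z a b := fun a b hb hb2 => by
      simp [Z1, hb, hb2]
    have hZf : ∀ a, Z a f = 0 := fun a => hZs a f (ren_cnt_f hhf K a)
    have hZ1hf : ∀ a, Z1 a h + Z1 a f = Z a h := by
      intro a
      rw [hZ1h, hZ1f]
      by_cases h1 : Q.cnt K a h = 0 <;> simp [h1]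
    have hZ1s : ∀ a b, Q.cnt K a b = 0 → Z1 a b = 0 := by
      intro a b h1
      by_cases hb : b = h
      · subst hb; rw [hZ1h]; simp [h1]
      · by_cases hb2 : b = f
        · subst hb2
          rw [hZ1f]
          by_cases h2 : Q.cnt K a h = 0
          · rw [if_pos h2]
            apply hZs
            rw [ren_cnt_hub hhf, h1, h2]
          · rw [if_neg h2]
        · rw [hZ1o a b hb hb2]
          apply hZs
          rw [ren_cnt_other hb hb2]; exact h1
    have hrow : ∀ a, ∑ b, Z1 a b = 0 := by
      intro a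
      rw [← hZr a]
      have e1 : ∀ W : B → ZMod 2, ∑ b, W b = W h + (W f + ∑ b ∈ (Finset.univ.erase h).erase f, W b) := by
        intro W
        rw [Finset.add_sum_erase _ W (Finset.mem_erase.2 ⟨Ne.symm hhf, Finset.mem_univ f⟩),
          Finset.add_sum_erase _ W (Finset.mem_univ h)]
      rw [e1 (fun b => Z1 a b), e1 (fun b => Z a b)]
      have e2 : ∑ b ∈ (Finset.univ.erase h).erase f, Z1 a b
          = ∑ b ∈ (Finset.univ.erase h).erase f, Z a b := by
        apply Finset.sum_congr rfl
        intro b hb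
        rw [Finset.mem_erase, Finset.mem_erase] at hb
        exact hZ1o a b hb.2.1 hb.1
      rw [e2, ← add_assoc, hZ1hf, hZf, zero_add]
    have hcolo : ∀ b, b ≠ h → b ≠ f → ∑ a, Z1 a b = 0 := by
      intro b hb hb2
      rw [← hZc b]
      exact Finset.sum_congr rfl (fun a _ => hZ1o a b hb hb2)
    have hcolhf : (∑ a, Z1 a h) + ∑ a, Z1 a f = 0 := by
      rw [← Finset.sum_add_distrib, ← hZc h]
      exact Finset.sum_congr rfl (fun a _ => hZ1hf a)
    set ρ : ZMod 2 := ∑ a, Z1 a h with hρ
    have hρf : ∑ a, Z1 a f = ρ := (CharTwo.add_eq_zero.1 hcolhf).symm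
    let D : A → B → ZMod 2 := fun a b => if a = v ∧ (b = h ∨ b = f) then ρ else 0
    let Z2 : A → B → ZMod 2 := fun a b => Z1 a b + D a b
    have hZ2s : ∀ a b, Q.cnt K a b = 0 → Z2 a b = 0 := by
      intro a b h1
      have h2 : D a b = 0 := by
        simp only [D]
        rw [if_neg]
        rintro ⟨rfl, hb⟩
        have h3 : Q.bd K a b = 1 := by
          rw [R.bd]; rcases hb with rfl | rfl
          · exact del_self₁
          · exact del_self₂
        rw [Q.bd_eq_zero_of_cnt h1] at h3
        exact absurd h3 (by decide)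
      simp only [Z2, h2, hZ1s a b h1, add_zero]
    have hZ2r : ∀ a, ∑ b, Z2 a b = 0 := by
      intro a
      simp only [Z2]
      rw [Finset.sum_add_distrib, hrow, zero_add]
      by_cases ha : a = v
      · have e1 : ∀ b : B, D a b = (if b = h then ρ else 0) + (if b = f then ρ else 0) := by
          intro b
          simp only [D, ha, true_and]
          by_cases h2 : b = h
          · subst h2; simp [hhf]
          · simp [h2]
        rw [Finset.sum_congr rfl (fun b _ => e1 b), Finset.sum_add_distrib]
        simp only [Finset.sum_ite_eq', Finset.mem_univ, if_true]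
        exact CharTwo.add_self_eq_zero _
      · apply Finset.sum_eq_zero
        intro b _
        simp [D, ha]
    have hZ2c : ∀ b, ∑ a, Z2 a b = 0 := by
      intro b
      simp only [Z2]
      rw [Finset.sum_add_distrib]
      by_cases hb : b = h ∨ b = f
      · have e1 : ∀ a : A, D a b = if a = v then ρ else 0 := by
          intro a
          simp only [D, hb, and_true]
        rw [Finset.sum_congr rfl (fun a _ => e1 a)]
        simp only [Finset.sum_ite_eq', Finset.mem_univ, if_true]
        rcases hb with rfl | rfl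
        · rw [← hρ]; exact CharTwo.add_self_eq_zero _
        · rw [hρf]; exact CharTwo.add_self_eq_zero _
      · have e1 : ∀ a : A, D a b = 0 := by
          intro a
          simp only [D, hb, and_false, if_false]
        rw [Finset.sum_congr rfl (fun a _ => e1 a)]
        push Not at hb
        simp only [Finset.sum_const_zero, add_zero]
        exact hcolo b hb.1 hb.2
    obtain ⟨X, hX, hbX⟩ := hE.ml Z2 (fun a b h1 => by
      apply hZ2s
      have := Q.cnt_mono hK a b
      omega) hZ2r hZ2c
    have hXK : X ∩ K ⊆ X := Finset.inter_subset_left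
    have hW : ∀ a b, Q.bd (X \ (X ∩ K)) a b = Z2 a b + Q.bd (X ∩ K) a b := by
      intro a b
      rw [Q.bd_sdiff hXK, hbX]
    have hsubE : X \ (X ∩ K) ⊆ E \ K := by
      intro i hi
      rw [Finset.mem_sdiff, Finset.mem_inter] at hi
      rw [Finset.mem_sdiff]
      exact ⟨hX hi.1, fun h3 => hi.2 ⟨hi.1, h3⟩⟩
    have hWs : ∀ a b, Q.bd (X \ (X ∩ K)) a b ≠ 0 → (a = v ∨ a = z) ∧ (b = h ∨ b = f) := by
      intro a b h3
      have h4 : Q.cnt (E \ K) a b ≠ 0 := by
        intro h5
        have h6 := Q.cnt_mono hsubE a b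
        exact h3 (Q.bd_eq_zero_of_cnt (by omega))
      have h5 : Q.cnt K a b ≠ 0 := by
        intro h6
        rw [hW] at h3
        have h7 := Q.cnt_mono (Finset.inter_subset_right : X ∩ K ⊆ K) a b
        rw [Q.bd_eq_zero_of_cnt (show Q.cnt (X ∩ K) a b = 0 by omega), add_zero,
          hZ2s a b h6] at h3
        exact h3 rfl
      have h6 := bd_one_of_both hE hK h5 h4
      rw [R.bd] at h6
      exact del_eq_one h6
    have hcor := corner_eq R.vz R.hf hWs (fun a => Q.sum_bd_B _ a) (fun b => Q.sum_bd_A _ b)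
    have hW0 : ∀ a, Q.bd (X \ (X ∩ K)) a h + Q.bd (X \ (X ∩ K)) a f = 0 := by
      intro a
      rcases hcor with h3 | h3
      · rw [h3, h3, add_zero]
      · rw [h3, h3]
        have : del v z h f a h = del v z h f a f := by
          unfold del; simp
        rw [this]; exact CharTwo.add_self_eq_zero _
    have hWo : ∀ a b, b ≠ h → b ≠ f → Q.bd (X \ (X ∩ K)) a b = 0 := by
      intro a b hb hb2
      by_contra h3
      rcases (hWs a b h3).2 with h4 | h4
      · exact hb h4
      · exact hb2 h4
    refine ⟨X ∩ K, Finset.inter_subset_right, ?_⟩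
    intro a b
    by_cases hb : b = h
    · subst hb
      rw [ren_bd_hub hhf]
      have e1 : Q.bd (X ∩ K) a b = Q.bd (X \ (X ∩ K)) a b + Z2 a b := by
        rw [hW]
        have : (2 : ZMod 2) = 0 := by decide
        linear_combination (-(Z2 a b)) * this
      have e2 : Q.bd (X ∩ K) a f = Q.bd (X \ (X ∩ K)) a f + Z2 a f := by
        rw [hW]
        have : (2 : ZMod 2) = 0 := by decide
        linear_combination (-(Z2 a f)) * this
      have e3 : Z2 a b + Z2 a f = Z a b := by
        simp only [Z2]
        have e4 : D a b = D a f := by simp [D]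
        rw [e4]
        have h5 := hZ1hf a
        have : (2 : ZMod 2) = 0 := by decide
        linear_combination h5 + (D a f) * this
      rw [e1, e2]
      have h6 := hW0 a
      linear_combination h6 + e3
    · by_cases hb2 : b = f
      · subst hb2
        have e1 : (Q.ren b h).bd (X ∩ K) a b = 0 := by
          unfold QS.bd; rw [ren_cnt_f hhf]; simp
        rw [e1, hZf]
      · rw [ren_bd_other hb hb2]
        have e1 : Q.bd (X ∩ K) a b = Q.bd (X \ (X ∩ K)) a b + Z2 a b := by
          rw [hW]
          have : (2 : ZMod 2) = 0 := by decide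
          linear_combination (-(Z2 a b)) * this
        rw [e1, hWo a b hb hb2, zero_add]
        simp only [Z2]
        have e4 : D a b = 0 := by simp [D, hb, hb2]
        rw [e4, add_zero, hZ1o a b hb hb2]

end

end Helper83.PY
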