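import Pool.Agent.Helper83.PY.Block

open Finset

set_option linter.unusedSectionVars false
set_option linter.unusedSimpArgs false
set_option linter.unusedVariables false

namespace Helper83.PY

variable {ι A B : Type*} [DecidableEq ι] [DecidableEq A] [DecidableEq B] [Fintype A] [Fintype B]

/-- every face of `S` is hit by `SA ∪ SB`. -/
def Hit (Q : QS ι A B) (S : Finset ι) (SA : Finset A) (SB : Finset B) : Prop :=
  ∀ i ∈ S, Q.p i ∈ SA ∨ Q.q i ∈ SA ∨ Q.x i ∈ SB ∨ Q.y i ∈ SB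

theorem Hit.mono {Q : QS ι A B} {S : Finset ι} {SA SA' : Finset A} {SB SB' : Finset B}
    (h : Hit Q S SA SB) (h1 : SA ⊆ SA') (h2 : SB ⊆ SB') : Hit Q S SA' SB' := by
  intro i hi
  rcases h i hi with h3 | h3 | h3 | h3
  · exact Or.inl (h1 h3)
  · exact Or.inr (Or.inl (h1 h3))
  · exact Or.inr (Or.inr (Or.inl (h2 h3)))
  · exact Or.inr (Or.inr (Or.inr (h2 h3)))

theorem Hit.union {Q : QS ι A B} {S T : Finset ι} {SA SA' : Finset A} {SB SB' : Finset B}
    (h : Hit Q S SA SB) (h' : Hit Q T SA' SB') : Hit Q (S ∪ T) (SA ∪ SA') (SB ∪ SB') := by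
  intro i hi
  rcases Finset.mem_union.1 hi with h3 | h3
  · exact h.mono Finset.subset_union_left Finset.subset_union_left i h3
  · exact h'.mono Finset.subset_union_right Finset.subset_union_right i h3

theorem Hit.of_atA {Q : QS ι A B} {i : ι} {a : A} {SA : Finset A} {SB : Finset B}
    (h : Q.atA i a) (ha : a ∈ SA) :
    Q.p i ∈ SA ∨ Q.q i ∈ SA ∨ Q.x i ∈ SB ∨ Q.y i ∈ SB := by
  rcases h with h | h
  · left; rw [h]; exact ha
  · right; left; rw [h]; exact ha

theorem Hit.of_atB {Q : QS ι A B} {i : ι} {b : B} {SA : Finset A} {SB : Finset B}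
    (h : Q.atB i b) (hb : b ∈ SB) :
    Q.p i ∈ SA ∨ Q.q i ∈ SA ∨ Q.x i ∈ SB ∨ Q.y i ∈ SB := by
  rcases h with h | h
  · right; right; left; rw [h]; exact hb
  · right; right; right; rw [h]; exact hb

variable (ι A B) in
/-- The three claims for spheres with `n` faces. -/
structure Claims (n : ℕ) : Prop where
  A0 : ∀ (Q : QS ι A B) (E : Finset ι) (h : B), IsSph Q E → E.card = n → (∃ i ∈ E, Q.atB i h) →
    ∃ (SA : Finset A) (SB : Finset B), h ∉ SB ∧ Hit Q E SA SB ∧ 3 * (SA.card + SB.card) ≤ n + 2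
  A1 : ∀ (Q : QS ι A B) (E : Finset ι) (h : B) (M : Finset A), IsSph Q E → E.card = n →
    M.Nonempty → (∀ a ∈ M, ∃ i ∈ E, Q.atA i a ∧ Q.atB i h) →
    ∃ (SA : Finset A) (SB : Finset B), M ⊆ SA ∧ h ∉ SB ∧ Hit Q E SA SB ∧
      3 * (SA.card + SB.card) ≤ n + 1 + 2 * M.card
  Af : ∀ (Q : QS ι A B) (E : Finset ι) (h : B) (e : ι), IsSph Q E → E.card = n → e ∈ E →
    Q.atB e h →
    ∃ (SA : Finset A) (SB : Finset B), h ∉ SB ∧ Hit Q (E.erase e) SA SB ∧
      3 * (SA.card + SB.card) ≤ n + 1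

/-- cost table of a region. -/
structure Tab (Q : QS ι A B) (K : Finset ι) (v z : A) (h f : B) (c0 c1 c2 cf : ℤ) : Prop where
  no : ∃ (SA : Finset A) (SB : Finset B), h ∉ SB ∧ f ∉ SB ∧ Hit Q K SA SB ∧
    3 * ((SA.card + SB.card : ℕ) : ℤ) ≤ K.card + c0
  hv : ∃ (SA : Finset A) (SB : Finset B), v ∈ SA ∧ h ∉ SB ∧ f ∉ SB ∧ Hit Q K SA SB ∧
    3 * ((SA.card + SB.card : ℕ) : ℤ) ≤ K.card + c1
  hz : ∃ (SA : Finset A) (SB : Finset B), z ∈ SA ∧ h ∉ SB ∧ f ∉ SB ∧ Hit Q K SA SB ∧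
    3 * ((SA.card + SB.card : ℕ) : ℤ) ≤ K.card + c1
  vz : ∃ (SA : Finset A) (SB : Finset B), v ∈ SA ∧ z ∈ SA ∧ h ∉ SB ∧ f ∉ SB ∧ Hit Q K SA SB ∧
    3 * ((SA.card + SB.card : ℕ) : ℤ) ≤ K.card + c2
  ff : ∃ (SA : Finset A) (SB : Finset B), h ∉ SB ∧ f ∈ SB ∧ Hit Q K SA SB ∧
    3 * ((SA.card + SB.card : ℕ) : ℤ) ≤ K.card + cf

/-- table of even type -/
def TE (Q : QS ι A B) (K : Finset ι) (v z : A) (h f : B) (m : ℤ) : Prop :=
  Tab Q K v z h f m (m + 3) (m + 3) (3 - 2 * m)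

/-- table of odd type -/
def TO (Q : QS ι A B) (K : Finset ι) (v z : A) (h f : B) (m : ℤ) : Prop :=
  Tab Q K v z h f m m (m + 3) (6 - 2 * m)

theorem hit_ren {Q : QS ι A B} {K : Finset ι} {h f : B} {SA : Finset A} {SB : Finset B}
    (hh : h ∉ SB) (hit : Hit (Q.ren f h) K SA SB) : Hit Q K SA (SB.erase f) := by
  intro i hi
  rcases hit i hi with h3 | h3 | h3 | h3
  · exact Or.inl h3
  · exact Or.inr (Or.inl h3)
  · right; right; left
    unfold QS.ren at h3
    simp only at h3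
    split_ifs at h3 with h4
    · exact absurd h3 hh
    · exact Finset.mem_erase.2 ⟨h4, h3⟩
  · right; right; right
    unfold QS.ren at h3
    simp only at h3
    split_ifs at h3 with h4
    · exact absurd h3 hh
    · exact Finset.mem_erase.2 ⟨h4, h3⟩

section
variable {Q : QS ι A B} {E K : Finset ι} {v z : A} {h f : B}

theorem reg_corner (R : IsReg Q K v z h f) {a : A} {b : B} (ha : a = v ∨ a = z)
    (hb : b = h ∨ b = f) : ∃ i ∈ K, Q.atA i a ∧ Q.atB i b := by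
  rw [← QS.cnt_ne_zero]
  intro h1
  have h2 := R.bd a b
  rw [Q.bd_eq_zero_of_cnt h1] at h2
  unfold del at h2
  rw [if_pos ⟨ha, hb⟩] at h2
  exact absurd h2 (by decide)

/-- table of a block region -/
theorem block_tab (hcl : Claims ι A B K.card) (hE : IsSph Q E) (hK : K ⊆ E)
    (R : IsReg Q K v z h f)
    (hbl : ∀ a, a ≠ v → a ≠ z → Q.cnt K a h = 0 ∨ Q.cnt K a f = 0) :
    (∃ m, TE Q K v z h f m) ∨ (∃ m, TO Q K v z h f m) := by
  have hs := block_sph hE hK R hbl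
  have hhf := R.hf
  obtain ⟨i1, hi1, hi1a, hi1b⟩ := reg_corner R (Or.inl rfl : v = v ∨ v = z) (Or.inl rfl : h = h ∨ h = f)
  obtain ⟨i2, hi2, hi2a, hi2b⟩ := reg_corner R (Or.inr rfl : z = v ∨ z = z) (Or.inl rfl : h = h ∨ h = f)
  obtain ⟨i3, hi3, hi3a, hi3b⟩ := reg_corner R (Or.inl rfl : v = v ∨ v = z) (Or.inr rfl : f = h ∨ f = f)
  have hub : ∀ i, Q.atB i h ∨ Q.atB i f → (Q.ren f h).atB i h := fun i => (ren_atB_hub hhf i).2
  obtain ⟨SA0, SB0, a1, a2, a3⟩ := hcl.A0 _ K h hs rfl ⟨i1, hi1, hub i1 (Or.inl hi1b)⟩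
  obtain ⟨SAv, SBv, b0, b1, b2, b3⟩ := hcl.A1 _ K h {v} hs rfl (Finset.singleton_nonempty v)
    (fun a ha => by
      rw [Finset.mem_singleton] at ha; subst ha
      exact ⟨i1, hi1, hi1a, hub i1 (Or.inl hi1b)⟩)
  obtain ⟨SAz, SBz, c0, c1, c2, c3⟩ := hcl.A1 _ K h {z} hs rfl (Finset.singleton_nonempty z)
    (fun a ha => by
      rw [Finset.mem_singleton] at ha; subst ha
      exact ⟨i2, hi2, hi2a, hub i2 (Or.inl hi2b)⟩)
  obtain ⟨SAvz, SBvz, d0, d1, d2, d3⟩ := hcl.A1 _ K h {v, z} hs rfl (Finset.insert_nonempty v {z})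
    (fun a ha => by
      rw [Finset.mem_insert, Finset.mem_singleton] at ha
      rcases ha with rfl | rfl
      · exact ⟨i1, hi1, hi1a, hub i1 (Or.inl hi1b)⟩
      · exact ⟨i2, hi2, hi2a, hub i2 (Or.inl hi2b)⟩)
  obtain ⟨SAf, SBf, f1, f2, f3⟩ := hcl.Af _ K h i3 hs rfl hi3 (hub i3 (Or.inr hi3b))
  rw [Finset.card_singleton] at b3 c3
  rw [Finset.card_pair R.vz] at d3
  have ev : v ∈ SAv := b0 (Finset.mem_singleton_self v)
  have ez : z ∈ SAz := c0 (Finset.mem_singleton_self z)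
  have evz1 : v ∈ SAvz := d0 (Finset.mem_insert_self v _)
  have evz2 : z ∈ SAvz := d0 (Finset.mem_insert_of_mem (Finset.mem_singleton_self z))
  have hitf : Hit Q K SAf (insert f (SBf.erase f)) := by
    intro i hi
    by_cases hif : i = i3
    · subst hif; exact Hit.of_atB hi3b (Finset.mem_insert_self _ _)
    · exact (hit_ren f1 f2).mono (Finset.Subset.refl _) (Finset.subset_insert _ _) i
        (Finset.mem_erase.2 ⟨hif, hi⟩)
  have hne : h ∉ insert f (SBf.erase f) := by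
    intro h1
    rcases Finset.mem_insert.1 h1 with h2 | h2
    · exact hhf h2
    · exact f1 (Finset.mem_of_mem_erase h2)
  have cer : ∀ SB : Finset B, (SB.erase f).card ≤ SB.card := fun SB => Finset.card_erase_le
  have cin : (insert f (SBf.erase f)).card ≤ SBf.card + 1 :=
    (Finset.card_insert_le _ _).trans (Nat.add_le_add_right (cer SBf) 1)
  have hh : ∀ SB : Finset B, h ∉ SB → h ∉ SB.erase f := fun SB h1 h2 =>
    h1 (Finset.mem_of_mem_erase h2)
  have hff : ∀ SB : Finset B, f ∉ SB.erase f := fun SB => Finset.notMem_erase f SB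
  have key : ∀ c0' c1' c2' cf' : ℤ,
      (3 * ((SA0.card + SB0.card : ℕ) : ℤ) ≤ K.card + c0') →
      (3 * ((SAv.card + SBv.card : ℕ) : ℤ) ≤ K.card + c1') →
      (3 * ((SAz.card + SBz.card : ℕ) : ℤ) ≤ K.card + c1') →
      (3 * ((SAvz.card + SBvz.card : ℕ) : ℤ) ≤ K.card + c2') →
      (3 * ((SAf.card + SBf.card : ℕ) : ℤ) + 3 ≤ K.card + cf') →
      Tab Q K v z h f c0' c1' c2' cf' := by
    intro c0' c1' c2' cf' g0 gv gz gvz gf
    refine ⟨⟨SA0, SB0.erase f, hh _ a1, hff _, hit_ren a1 a2, ?_⟩,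
      ⟨SAv, SBv.erase f, ev, hh _ b1, hff _, hit_ren b1 b2, ?_⟩,
      ⟨SAz, SBz.erase f, ez, hh _ c1, hff _, hit_ren c1 c2, ?_⟩,
      ⟨SAvz, SBvz.erase f, evz1, evz2, hh _ d1, hff _, hit_ren d1 d2, ?_⟩,
      ⟨SAf, insert f (SBf.erase f), hne, Finset.mem_insert_self _ _, hitf, ?_⟩⟩
    · have := cer SB0; push_cast at *; omega
    · have := cer SBv; push_cast at *; omega
    · have := cer SBz; push_cast at *; omega
    · have := cer SBvz; push_cast at *; omega
    · push_cast at *; omega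
  have hmod : K.card % 3 = 0 ∨ K.card % 3 = 1 ∨ K.card % 3 = 2 := by omega
  rcases hmod with hm | hm | hm
  · left; refine ⟨0, ?_⟩
    apply key <;> (push_cast; omega)
  · right; refine ⟨2, ?_⟩
    apply key <;> (push_cast; omega)
  · right; refine ⟨1, ?_⟩
    apply key <;> (push_cast; omega)

theorem card_union_lt' {α : Type*} [DecidableEq α] {S T : Finset α} {a : α} (h1 : a ∈ S)
    (h2 : a ∈ T) : (S ∪ T).card + 1 ≤ S.card + T.card := by
  have h3 := Finset.card_union_add_card_inter S T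
  have h4 : 1 ≤ (S ∩ T).card := Finset.card_pos.2 ⟨a, Finset.mem_inter.2 ⟨h1, h2⟩⟩
  omega

theorem notMem_union' {α : Type*} [DecidableEq α] {S T : Finset α} {a : α} (h1 : a ∉ S)
    (h2 : a ∉ T) : a ∉ S ∪ T := by
  rw [Finset.mem_union]; tauto

/-- composition of tables at the common end `w` -/
theorem tab_comp {K1 K2 : Finset ι} {w : A} (hK1 : K1 ⊆ K) (hK2 : K2 = K \ K1)
    (h1 : (∃ m, TE Q K1 v w h f m) ∨ (∃ m, TO Q K1 v w h f m))
    (h2 : (∃ m, TE Q K2 w z h f m) ∨ (∃ m, TO Q K2 w z h f m)) :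
    (∃ m, TE Q K v z h f m) ∨ (∃ m, TO Q K v z h f m) := by
  have hU : K1 ∪ K2 = K := by rw [hK2]; exact Finset.union_sdiff_of_subset hK1
  have hc : K1.card + K2.card = K.card := by
    rw [hK2, Finset.card_sdiff_of_subset hK1]
    have := Finset.card_le_card hK1
    omega
  have hcz : (K1.card : ℤ) + K2.card = K.card := by exact_mod_cast hc
  have hit : ∀ {SA SA' : Finset A} {SB SB' : Finset B}, Hit Q K1 SA SB → Hit Q K2 SA' SB' →
      Hit Q K (SA ∪ SA') (SB ∪ SB') := by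
    intro SA SA' SB SB' g1 g2
    rw [← hU]; exact g1.union g2
  have uA : ∀ S T : Finset A, (S ∪ T).card ≤ S.card + T.card := fun S T => Finset.card_union_le S T
  have uB : ∀ S T : Finset B, (S ∪ T).card ≤ S.card + T.card := fun S T => Finset.card_union_le S T
  rcases h1 with ⟨m1, t1⟩ | ⟨m1, t1⟩ <;> rcases h2 with ⟨m2, t2⟩ | ⟨m2, t2⟩ <;>
    obtain ⟨⟨SA10, SB10, a1, a2, a3, a4⟩, ⟨SA11, SB11, b0, b1, b2, b3, b4⟩,
      ⟨SA12, SB12, c0, c1, c2, c3, c4⟩, ⟨SA13, SB13, d0, d0', d1, d2, d3, d4⟩,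
      ⟨SA14, SB14, e1, e2, e3, e4⟩⟩ := t1 <;>
    obtain ⟨⟨SA20, SB20, a1', a2', a3', a4'⟩, ⟨SA21, SB21, b0', b1', b2', b3', b4'⟩,
      ⟨SA22, SB22, c0', c1', c2', c3', c4'⟩, ⟨SA23, SB23, d0x, d0'', d1', d2', d3', d4'⟩,
      ⟨SA24, SB24, e1', e2', e3', e4'⟩⟩ := t2
  · -- EE
    left
    refine ⟨m1 + m2, ⟨⟨SA10 ∪ SA20, SB10 ∪ SB20, notMem_union' a1 a1', notMem_union' a2 a2',
      hit a3 a3', ?_⟩, ⟨SA11 ∪ SA20, SB11 ∪ SB20, Finset.mem_union_left _ b0,
      notMem_union' b1 a1', notMem_union' b2 a2', hit b3 a3', ?_⟩,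
      ⟨SA10 ∪ SA22, SB10 ∪ SB22, Finset.mem_union_right _ c0', notMem_union' a1 c1',
      notMem_union' a2 c2', hit a3 c3', ?_⟩,
      ⟨SA13 ∪ SA23, SB13 ∪ SB23, Finset.mem_union_left _ d0, Finset.mem_union_right _ d0'',
      notMem_union' d1 d1', notMem_union' d2 d2', hit d3 d3', ?_⟩,
      ⟨SA14 ∪ SA24, SB14 ∪ SB24, notMem_union' e1 e1', Finset.mem_union_left _ e2,
      hit e3 e3', ?_⟩⟩⟩
    · have := uA SA10 SA20; have := uB SB10 SB20; push_cast at *; omega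
    · have := uA SA11 SA20; have := uB SB11 SB20; push_cast at *; omega
    · have := uA SA10 SA22; have := uB SB10 SB22; push_cast at *; omega
    · have := card_union_lt' d0' d0x; have := uB SB13 SB23; push_cast at *; omega
    · have := uA SA14 SA24; have := card_union_lt' e2 e2'; push_cast at *; omega
  · -- EO
    right
    refine ⟨m1 + m2, ⟨⟨SA10 ∪ SA20, SB10 ∪ SB20, notMem_union' a1 a1', notMem_union' a2 a2',
      hit a3 a3', ?_⟩, ⟨SA13 ∪ SA21, SB13 ∪ SB21, Finset.mem_union_left _ d0,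
      notMem_union' d1 b1', notMem_union' d2 b2', hit d3 b3', ?_⟩,
      ⟨SA10 ∪ SA22, SB10 ∪ SB22, Finset.mem_union_right _ c0', notMem_union' a1 c1',
      notMem_union' a2 c2', hit a3 c3', ?_⟩,
      ⟨SA11 ∪ SA22, SB11 ∪ SB22, Finset.mem_union_left _ b0, Finset.mem_union_right _ c0',
      notMem_union' b1 c1', notMem_union' b2 c2', hit b3 c3', ?_⟩,
      ⟨SA14 ∪ SA24, SB14 ∪ SB24, notMem_union' e1 e1', Finset.mem_union_left _ e2,
      hit e3 e3', ?_⟩⟩⟩
    · have := uA SA10 SA20; have := uB SB10 SB20; push_cast at *; omega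
    · have := card_union_lt' d0' b0'; have := uB SB13 SB21; push_cast at *; omega
    · have := uA SA10 SA22; have := uB SB10 SB22; push_cast at *; omega
    · have := uA SA11 SA22; have := uB SB11 SB22; push_cast at *; omega
    · have := uA SA14 SA24; have := card_union_lt' e2 e2'; push_cast at *; omega
  · -- OE
    right
    refine ⟨m1 + m2, ⟨⟨SA10 ∪ SA20, SB10 ∪ SB20, notMem_union' a1 a1', notMem_union' a2 a2',
      hit a3 a3', ?_⟩, ⟨SA11 ∪ SA20, SB11 ∪ SB20, Finset.mem_union_left _ b0,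
      notMem_union' b1 a1', notMem_union' b2 a2', hit b3 a3', ?_⟩,
      ⟨SA12 ∪ SA23, SB12 ∪ SB23, Finset.mem_union_right _ d0'', notMem_union' c1 d1',
      notMem_union' c2 d2', hit c3 d3', ?_⟩,
      ⟨SA11 ∪ SA22, SB11 ∪ SB22, Finset.mem_union_left _ b0, Finset.mem_union_right _ c0',
      notMem_union' b1 c1', notMem_union' b2 c2', hit b3 c3', ?_⟩,
      ⟨SA14 ∪ SA24, SB14 ∪ SB24, notMem_union' e1 e1', Finset.mem_union_left _ e2,
      hit e3 e3', ?_⟩⟩⟩
    · have := uA SA10 SA20; have := uB SB10 SB20; push_cast at *; omega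
    · have := uA SA11 SA20; have := uB SB11 SB20; push_cast at *; omega
    · have := card_union_lt' c0 d0x; have := uB SB12 SB23; push_cast at *; omega
    · have := uA SA11 SA22; have := uB SB11 SB22; push_cast at *; omega
    · have := uA SA14 SA24; have := card_union_lt' e2 e2'; push_cast at *; omega
  · -- OO
    left
    refine ⟨m1 + m2 - 3, ⟨⟨SA12 ∪ SA21, SB12 ∪ SB21, notMem_union' c1 b1', notMem_union' c2 b2',
      hit c3 b3', ?_⟩, ⟨SA11 ∪ SA20, SB11 ∪ SB20, Finset.mem_union_left _ b0,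
      notMem_union' b1 a1', notMem_union' b2 a2', hit b3 a3', ?_⟩,
      ⟨SA10 ∪ SA22, SB10 ∪ SB22, Finset.mem_union_right _ c0', notMem_union' a1 c1',
      notMem_union' a2 c2', hit a3 c3', ?_⟩,
      ⟨SA11 ∪ SA22, SB11 ∪ SB22, Finset.mem_union_left _ b0, Finset.mem_union_right _ c0',
      notMem_union' b1 c1', notMem_union' b2 c2', hit b3 c3', ?_⟩,
      ⟨SA14 ∪ SA24, SB14 ∪ SB24, notMem_union' e1 e1', Finset.mem_union_left _ e2,
      hit e3 e3', ?_⟩⟩⟩
    · have := card_union_lt' c0 b0'; have := uB SB12 SB21; push_cast at *; omega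
    · have := uA SA11 SA20; have := uB SB11 SB20; push_cast at *; omega
    · have := uA SA10 SA22; have := uB SB10 SB22; push_cast at *; omega
    · have := uA SA11 SA22; have := uB SB11 SB22; push_cast at *; omega
    · have := uA SA14 SA24; have := card_union_lt' e2 e2'; push_cast at *; omega

end

/-- The chain lemma. -/
theorem chain {N : ℕ} (hcl : ∀ j ≤ N, Claims ι A B j) : ∀ n ≤ N,
    ∀ (Q : QS ι A B) (E K : Finset ι) (v z : A) (h f : B), IsSph Q E → K ⊆ E →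
    IsReg Q K v z h f → K.card = n → (∃ m, TE Q K v z h f m) ∨ (∃ m, TO Q K v z h f m) := by
  intro n
  induction n using Nat.strong_induction_on with
  | _ n ih =>
    intro hn Q E K v z h f hE hK R hc
    by_cases hbl : ∀ a, a ≠ v → a ≠ z → Q.cnt K a h = 0 ∨ Q.cnt K a f = 0
    · exact block_tab (hcl _ (by omega)) hE hK R hbl
    · push Not at hbl
      obtain ⟨w, hwv, hwz, h1, h2⟩ := hbl
      obtain ⟨K1, hK1, R1, R2⟩ := reg_split hE hK R hwv hwz h1 h2
      have p1 : 0 < K1.card := Finset.card_pos.2 (Finset.nonempty_iff_ne_empty.2 (reg_ne_empty R1))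
      have p2 : 0 < (K \ K1).card :=
        Finset.card_pos.2 (Finset.nonempty_iff_ne_empty.2 (reg_ne_empty R2))
      have p3 := Finset.card_sdiff_of_subset hK1
      have p4 := Finset.card_le_card hK1
      exact tab_comp hK1 rfl
        (ih K1.card (by omega) (by omega) Q E K1 v w h f hE (hK1.trans hK) R1 rfl)
        (ih (K \ K1).card (by omega) (by omega) Q E (K \ K1) w z h f hE
          (Finset.sdiff_subset.trans hK) R2 rfl)

end Helper83.PY
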