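import Pool.Agent.Helper83.PY.Surg

/-!
Definitions for B* and the four hubs.
-/

open Finset

set_option linter.unusedSectionVars false
set_option linter.unusedSimpArgs false
set_option linter.unusedVariables false

namespace Helper83.PY

variable {ι : Type}

/-- `a` and `b` are adjacent (some face of `E` contains the pair) -/
def Adj {A B : Type} (Q : QS ι A B) (E : Finset ι) (a : A) (b : B) : Prop :=
  ∃ i ∈ E, Q.atA i a ∧ Q.atB i b

/-- no separating 4-cycle through the edge `u h`: every common neighbour `z` of `h` and of a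
neighbour `f` of `u` gives a face `(u, h, z, f)`. -/
def NoTypeI {A B : Type} (Q : QS ι A B) (E : Finset ι) (u : A) (h : B) : Prop :=
  ∀ z f, z ≠ u → f ≠ h → Adj Q E z h → Adj Q E z f → Adj Q E u f →
    ∃ i ∈ E, Q.atA i u ∧ Q.atA i z ∧ Q.atB i h ∧ Q.atB i f

/-- the conclusion of B*: all faces can be hit avoiding `u` and `h`, at cost `(|E| + k)/3` -/
def Good {A B : Type} (Q : QS ι A B) (E : Finset ι) (u : A) (h : B) (k : ℕ) : Prop :=
  ∃ (SA : Finset A) (SB : Finset B), u ∉ SA ∧ h ∉ SB ∧ Hit Q E SA SB ∧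
    3 * (SA.card + SB.card) ≤ E.card + k

variable (ι) in
/-- B* for spheres without type I cycles -/
def NM [DecidableEq ι] : Prop :=
  ∀ (A B : Type) [DecidableEq A] [DecidableEq B] [Fintype A] [Fintype B]
    (Q : QS ι A B) (E : Finset ι) (u : A) (h : B),
    IsSph Q E → Adj Q E u h → NoTypeI Q E u h → Good Q E u h 2

variable (ι) in
/-- B* -/
def BStar [DecidableEq ι] : Prop :=
  ∀ (A B : Type) [DecidableEq A] [DecidableEq B] [Fintype A] [Fintype B]
    (Q : QS ι A B) (E : Finset ι) (u : A) (h : B),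
    IsSph Q E → Adj Q E u h → Good Q E u h 2

variable (ι) in
/-- B* with a forced set of outer vertices -/
def BStarM [DecidableEq ι] : Prop :=
  ∀ (A B : Type) [DecidableEq A] [DecidableEq B] [Fintype A] [Fintype B]
    (Q : QS ι A B) (E : Finset ι) (u : A) (h : B) (M : Finset A),
    IsSph Q E → Adj Q E u h → u ∉ M → (∀ a ∈ M, Adj Q E a h) →
    ∃ (SA : Finset A) (SB : Finset B), M ⊆ SA ∧ u ∉ SA ∧ h ∉ SB ∧ Hit Q E SA SB ∧
      3 * (SA.card + SB.card) ≤ E.card + 2 + 2 * M.card

end Helper83.PY
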