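import Pool.Agent.Helper83.PY.Defs2

/-!
Definitions for Lemma Z, the reductions, and the four hubs.
-/

open Finset

set_option linter.unusedSectionVars false
set_option linter.unusedSimpArgs false
set_option linter.unusedVariables false

namespace Helper83.PY

variable {ι : Type}

/-- The setting: a sphere, a forbidden hub `h`, a forbidden neighbour `u` of `h`, other forbidden
neighbours `U` of `h` which have only `h` in common with `u`. -/
structure Setg [DecidableEq ι] {A B : Type} [DecidableEq A] [DecidableEq B] [Fintype A]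
    [Fintype B] (Q : QS ι A B) (E : Finset ι) (u : A) (h : B) (U : Finset A) : Prop where
  sph : IsSph Q E
  adj : Adj Q E u h
  uU : u ∉ U
  outer : ∀ v ∈ U, Adj Q E v h
  disj : ∀ v ∈ U, ∀ b, Adj Q E v b → Adj Q E u b → b = h

/-- a cover of `E` containing `M`, avoiding `u`, `U` and `h`, at cost `(|E| + t)/3` -/
def GoodM {A B : Type} (Q : QS ι A B) (E : Finset ι) (u : A) (h : B) (U M : Finset A) (t : ℕ) :
    Prop :=
  ∃ (SA : Finset A) (SB : Finset B), M ⊆ SA ∧ u ∉ SA ∧ (∀ v ∈ U, v ∉ SA) ∧ h ∉ SB ∧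
    Hit Q E SA SB ∧ 3 * (SA.card + SB.card) ≤ E.card + t

variable (ι) in
/-- The base for Lemma Z: covers with at most `k` forbidden outer vertices `U` and a forced set `M`
of outer vertices, at cost `(|E| + T |M|)/3`. -/
def BaseT [DecidableEq ι] (k : ℕ) (T : ℕ → ℕ) : Prop :=
  ∀ (A B : Type) [DecidableEq A] [DecidableEq B] [Fintype A] [Fintype B]
    (Q : QS ι A B) (E : Finset ι) (h : B) (U M : Finset A),
    IsSph Q E → (∃ a, Adj Q E a h) → (∀ a ∈ U, Adj Q E a h) → U.card ≤ k →
    (∀ a ∈ M, Adj Q E a h) → (∀ a ∈ M, a ∉ U) →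
    ∃ (SA : Finset A) (SB : Finset B), M ⊆ SA ∧ (∀ v ∈ U, v ∉ SA) ∧ h ∉ SB ∧
      Hit Q E SA SB ∧ 3 * (SA.card + SB.card) ≤ E.card + T M.card

/-- neighbours of `u` -/
def nb {A B : Type} [DecidableEq A] [DecidableEq B] [Fintype B] (Q : QS ι A B) (E : Finset ι)
    (u : A) : Finset B := Finset.univ.filter (fun b => Q.cnt E u b ≠ 0)

/-- `E` is clean at `u` (seen from the face `g` at `u`): two neighbours of `u` with a second common
neighbour `z` are on a common face at `u`, or the faces at `u` between them (on the side without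
`g`) all have the ends `u z`. -/
def Clean {A B : Type} [DecidableEq A] [DecidableEq B] (Q : QS ι A B) (E : Finset ι)
    (u : A) (g : ι) : Prop :=
  ∀ (z : A) (b b' : B), z ≠ u → b ≠ b' → Adj Q E u b → Adj Q E u b' → Adj Q E z b →
    Adj Q E z b' →
    (∃ i ∈ E, Q.atA i u ∧ Q.atB i b ∧ Q.atB i b') ∨
    (∃ X ⊆ E, g ∉ X ∧ (∀ i ∈ X, Q.atA i u ∧ Q.atA i z) ∧
      (∀ c, Q.bd X u c = if c = b ∨ c = b' then 1 else 0))

/-- a side region at `u`: ends `u z`, hubs `b b'`, no face at `h`, and `b b'` have no common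
neighbour outside the region except `u z`. -/
structure Side [DecidableEq ι] {A B : Type} [DecidableEq A] [DecidableEq B] (Q : QS ι A B)
    (E K : Finset ι) (u z : A) (b b' h : B) : Prop where
  sub : K ⊆ E
  reg : IsReg Q K u z b b'
  noh : ∀ i ∈ K, ¬ Q.atB i h
  out : ∀ a, a ≠ u → a ≠ z → Q.cnt (E \ K) a b = 0 ∨ Q.cnt (E \ K) a b' = 0

/-- the side region is a block: `u z` have no common neighbour inside -/
def Blk {A B : Type} [DecidableEq A] [DecidableEq B] (Q : QS ι A B) (K : Finset ι) (u z : A)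
    (b b' : B) : Prop :=
  ∀ c, c ≠ b → c ≠ b' → Q.cnt K u c = 0 ∨ Q.cnt K z c = 0

variable (ι) in
/-- the induction statement: spheres with `n` faces without type I cycle at `u h` -/
def FMn [DecidableEq ι] (k κ n : ℕ) : Prop :=
  ∀ (A B : Type) [DecidableEq A] [DecidableEq B] [Fintype A] [Fintype B]
    (Q : QS ι A B) (E : Finset ι) (u : A) (h : B) (U : Finset A),
    Setg Q E u h U → U.card ≤ k → NoTypeI Q E u h → 2 ≤ E.card → E.card = n →
    GoodM Q E u h U ∅ κ

end Helper83.PY
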