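import Pool.Agent.Helper83.PY.Basic

/-!
Construction of `IsSph` from local evenness, connectedness (dual and primal) and the count.
-/

open Finset

set_option linter.unusedSectionVars false
set_option linter.unusedSimpArgs false
set_option linter.unusedVariables false

namespace Helper83.PY

variable {ι A B : Type*} [DecidableEq ι] [DecidableEq A] [DecidableEq B] [Fintype A] [Fintype B]
  [Fintype ι]

/-- the pairs used -/
abbrev Pairs (Q : QS ι A B) : Type _ := {p : A × B // Q.cnt Finset.univ p.1 p.2 ≠ 0}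

/-- vertex/pair incidence matrix -/
def Dm (Q : QS ι A B) : Matrix (A ⊕ B) (Pairs Q) (ZMod 2) :=
  fun s p => match s with
    | Sum.inl a => if p.1.1 = a then 1 else 0
    | Sum.inr b => if p.1.2 = b then 1 else 0

/-- pair/face incidence matrix -/
def Tm (Q : QS ι A B) : Matrix (Pairs Q) ι (ZMod 2) :=
  fun p i => (Q.inc i p.1.1 p.1.2 : ZMod 2)

theorem finrank_span_one_le {n : Type*} [Fintype n] (S : Submodule (ZMod 2) (n → ZMod 2))
    (h : ∀ x ∈ S, x = 0 ∨ x = fun _ => 1) : Module.finrank (ZMod 2) S ≤ 1 := by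
  have h1 : S ≤ Submodule.span (ZMod 2) {(fun _ => 1 : n → ZMod 2)} := by
    intro x hx
    rcases h x hx with h2 | h2
    · rw [h2]; exact Submodule.zero_mem _
    · rw [h2]; exact Submodule.mem_span_singleton_self _
  refine (Submodule.finrank_mono h1).trans ?_
  exact (finrank_span_le_card _).trans (by simp)

section
variable {Q : QS ι A B}

/-- total number of incidences -/
theorem sum_inc (Q : QS ι A B) (i : ι) : ∑ p : A × B, Q.inc i p.1 p.2 = 4 := by
  rw [Fintype.sum_prod_type]
  unfold QS.inc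
  simp only
  rw [← Finset.sum_mul_sum Finset.univ Finset.univ
    (fun a => (if Q.p i = a then 1 else 0) + (if Q.q i = a then 1 else 0))
    (fun b => (if Q.x i = b then 1 else 0) + (if Q.y i = b then 1 else 0))]
  simp only [Finset.sum_add_distrib, Finset.sum_ite_eq, Finset.mem_univ, if_true]
  norm_num

theorem card_pairs (htwo : ∀ a b, Q.cnt Finset.univ a b = 0 ∨ Q.cnt Finset.univ a b = 2) :
    Fintype.card (Pairs Q) = 2 * Fintype.card ι := by
  have h1 : ∑ p : A × B, Q.cnt Finset.univ p.1 p.2 = 4 * Fintype.card ι := by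
    unfold QS.cnt
    rw [Finset.sum_comm]
    rw [Finset.sum_congr rfl (fun i _ => sum_inc Q i)]
    simp [Finset.sum_const, Finset.card_univ, mul_comm]
  have h2 : ∑ p : A × B, Q.cnt Finset.univ p.1 p.2
      = ∑ p ∈ Finset.univ.filter (fun p : A × B => Q.cnt Finset.univ p.1 p.2 ≠ 0), 2 := by
    rw [Finset.sum_filter]
    apply Finset.sum_congr rfl
    intro p _
    rcases htwo p.1 p.2 with h3 | h3 <;> simp [h3]
  rw [h2, Finset.sum_const, smul_eq_mul] at h1
  rw [Fintype.card_subtype]
  omega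

theorem rank_ge {m n : Type*} [Fintype m] [Fintype n] [DecidableEq n] (Mx : Matrix m n (ZMod 2))
    (h : ∀ x : n → ZMod 2, Mx.mulVec x = 0 → x = 0 ∨ x = fun _ => 1) :
    Fintype.card n ≤ Mx.rank + 1 := by
  have h1 := LinearMap.finrank_range_add_finrank_ker Mx.mulVecLin
  have h2 : Module.finrank (ZMod 2) (LinearMap.ker Mx.mulVecLin) ≤ 1 := by
    apply finrank_span_one_le
    intro x hx
    apply h
    rw [LinearMap.mem_ker] at hx
    simpa using hx
  have h3 : Module.finrank (ZMod 2) (n → ZMod 2) = Fintype.card n :=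
    Module.finrank_fintype_fun_eq_card (ZMod 2)
  unfold Matrix.rank
  omega

theorem Tm_mulVec (x : ι → ZMod 2) (p : Pairs Q) :
    (Tm Q).mulVec x p = Q.bd (Finset.univ.filter (fun i => x i = 1)) p.1.1 p.1.2 := by
  unfold Matrix.mulVec dotProduct Tm QS.bd QS.cnt
  push_cast
  rw [Finset.sum_filter]
  apply Finset.sum_congr rfl
  intro i _
  rcases zmod2_cases (x i) with h | h <;> simp [h]

theorem rank_T (hconn : ∀ S : Finset ι, (∀ a b, Q.bd S a b = 0) → S = ∅ ∨ S = Finset.univ) :
    Fintype.card ι ≤ (Tm Q).rank + 1 := by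
  apply rank_ge
  intro x hx
  have h1 : ∀ a b, Q.bd (Finset.univ.filter (fun i => x i = 1)) a b = 0 := by
    intro a b
    by_cases h2 : Q.cnt Finset.univ a b = 0
    · have := Q.cnt_mono (Finset.subset_univ (Finset.univ.filter (fun i => x i = 1))) a b
      exact Q.bd_eq_zero_of_cnt (by omega)
    · have h3 := Tm_mulVec (Q := Q) x ⟨(a, b), h2⟩
      rw [hx] at h3
      exact h3.symm
  rcases hconn _ h1 with h2 | h2
  · left
    funext i
    rcases zmod2_cases (x i) with h | h
    · exact h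
    · exfalso
      have : i ∈ Finset.univ.filter (fun i => x i = 1) :=
        Finset.mem_filter.2 ⟨Finset.mem_univ i, h⟩
      rw [h2] at this
      exact absurd this (Finset.notMem_empty i)
  · right
    funext i
    have : i ∈ Finset.univ.filter (fun i => x i = 1) := by rw [h2]; exact Finset.mem_univ i
    exact (Finset.mem_filter.1 this).2

theorem DmT_mulVec (x : A ⊕ B → ZMod 2) (p : Pairs Q) :
    (Dm Q).transpose.mulVec x p = x (Sum.inl p.1.1) + x (Sum.inr p.1.2) := by
  unfold Matrix.mulVec dotProduct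
  rw [Fintype.sum_sum_type]
  unfold Dm
  simp [Matrix.transpose_apply]

theorem rank_D (hg : ∀ (α : A → ZMod 2) (β : B → ZMod 2),
      (∀ a b, Q.cnt Finset.univ a b ≠ 0 → α a = β b) →
      (∃ c, (∀ a, α a = c) ∧ ∀ b, β b = c)) :
    Fintype.card A + Fintype.card B ≤ (Dm Q).rank + 1 := by
  rw [← Matrix.rank_transpose, ← Fintype.card_sum]
  apply rank_ge
  intro x hx
  obtain ⟨c, h1, h2⟩ := hg (fun a => x (Sum.inl a)) (fun b => x (Sum.inr b)) (by
    intro a b hab
    have h3 := DmT_mulVec (Q := Q) x ⟨(a, b), hab⟩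
    rw [hx] at h3
    exact CharTwo.add_eq_zero.1 h3.symm)
  rcases zmod2_cases c with h | h
  · left
    funext s
    rcases s with a | b
    · rw [h1 a, h]; rfl
    · rw [h2 b, h]; rfl
  · right
    funext s
    rcases s with a | b
    · rw [h1 a, h]
    · rw [h2 b, h]

theorem sum_pairs_row (Q : QS ι A B) (Z : A → B → ZMod 2)
    (hZ : ∀ a b, Q.cnt Finset.univ a b = 0 → Z a b = 0) (a : A) :
    ∑ p : Pairs Q, (if p.1.1 = a then Z p.1.1 p.1.2 else 0) = ∑ b, Z a b := by
  have h1 : ∑ p : Pairs Q, (if p.1.1 = a then Z p.1.1 p.1.2 else 0)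
      = ∑ p ∈ Finset.univ.filter (fun p : A × B => Q.cnt Finset.univ p.1 p.2 ≠ 0),
        (if p.1 = a then Z p.1 p.2 else 0) := by
    rw [Finset.sum_subtype (p := fun p : A × B => Q.cnt Finset.univ p.1 p.2 ≠ 0)]
    intro x; simp
  rw [h1, Finset.sum_filter, Fintype.sum_prod_type]
  rw [Finset.sum_eq_single a]
  · apply Finset.sum_congr rfl
    intro b _
    simp only
    by_cases h2 : Q.cnt Finset.univ a b = 0
    · simp [h2, hZ a b h2]
    · simp [h2]
  · intro a' _ ha'
    apply Finset.sum_eq_zero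
    intro b _
    simp [ha']
  · intro h; exact absurd (Finset.mem_univ a) h

theorem sum_pairs_col (Q : QS ι A B) (Z : A → B → ZMod 2)
    (hZ : ∀ a b, Q.cnt Finset.univ a b = 0 → Z a b = 0) (b : B) :
    ∑ p : Pairs Q, (if p.1.2 = b then Z p.1.1 p.1.2 else 0) = ∑ a, Z a b := by
  have h1 : ∑ p : Pairs Q, (if p.1.2 = b then Z p.1.1 p.1.2 else 0)
      = ∑ p ∈ Finset.univ.filter (fun p : A × B => Q.cnt Finset.univ p.1 p.2 ≠ 0),
        (if p.2 = b then Z p.1 p.2 else 0) := by
    rw [Finset.sum_subtype (p := fun p : A × B => Q.cnt Finset.univ p.1 p.2 ≠ 0)]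
    intro x; simp
  rw [h1, Finset.sum_filter, Fintype.sum_prod_type]
  apply Finset.sum_congr rfl
  intro a _
  rw [Finset.sum_eq_single b]
  · simp only
    by_cases h2 : Q.cnt Finset.univ a b = 0
    · simp [h2, hZ a b h2]
    · simp [h2]
  · intro b' _ hb'
    simp [hb']
  · intro h; exact absurd (Finset.mem_univ b) h

/-- `Dm * Tm = 0` -/
theorem Dm_mul_Tm (Q : QS ι A B) : Dm Q * Tm Q = 0 := by
  ext s i
  rw [Matrix.mul_apply, Matrix.zero_apply]
  have hz : ∀ a b, Q.cnt Finset.univ a b = 0 → ((Q.inc i a b : ℕ) : ZMod 2) = 0 := by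
    intro a b h
    have h2 := (Q.cnt_eq_zero _ _ _).1 h i (Finset.mem_univ i)
    rw [(Q.inc_eq_zero i a b).2 h2]; simp
  rcases s with a | b
  · have h1 := sum_pairs_row Q (fun a b => ((Q.inc i a b : ℕ) : ZMod 2)) hz a
    have h2 : ∑ b, ((Q.inc i a b : ℕ) : ZMod 2) = 0 := by
      have := Q.swap.sum_inc_A i a
      simpa only [QS.swap_inc] using this
    rw [h2] at h1
    rw [← h1]
    apply Finset.sum_congr rfl
    intro p _
    unfold Dm Tm
    by_cases h3 : p.1.1 = a <;> simp [h3]
  · have h1 := sum_pairs_col Q (fun a b => ((Q.inc i a b : ℕ) : ZMod 2)) hz b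
    rw [Q.sum_inc_A i b] at h1
    rw [← h1]
    apply Finset.sum_congr rfl
    intro p _
    unfold Dm Tm
    by_cases h3 : p.1.2 = b <;> simp [h3]

/-- exactness in the middle, from ranks -/
theorem exact_of_rank {l m n : Type*} [Fintype l] [Fintype m] [Fintype n] [DecidableEq m]
    [DecidableEq n] (D : Matrix l m (ZMod 2)) (T : Matrix m n (ZMod 2)) (h0 : D * T = 0)
    (hr : Fintype.card m ≤ D.rank + T.rank) (z : m → ZMod 2) (hz : D.mulVec z = 0) :
    ∃ x, T.mulVec x = z := by
  have h1 : LinearMap.range T.mulVecLin ≤ LinearMap.ker D.mulVecLin := by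
    rintro _ ⟨x, rfl⟩
    rw [LinearMap.mem_ker]
    simp [Matrix.mulVec_mulVec, h0]
  have h2 := LinearMap.finrank_range_add_finrank_ker D.mulVecLin
  have h3 : Module.finrank (ZMod 2) (m → ZMod 2) = Fintype.card m :=
    Module.finrank_fintype_fun_eq_card (ZMod 2)
  have h4 : LinearMap.range T.mulVecLin = LinearMap.ker D.mulVecLin := by
    apply Submodule.eq_of_le_of_finrank_le h1
    unfold Matrix.rank at hr
    omega
  have h5 : z ∈ LinearMap.ker D.mulVecLin := by
    rw [LinearMap.mem_ker]; simpa using hz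
  rw [← h4] at h5
  obtain ⟨x, hx⟩ := h5
  exact ⟨x, by simpa using hx⟩

/-- The link property at a side. -/
theorem link_aux (htwo : ∀ a b, Q.cnt Finset.univ a b = 0 ∨ Q.cnt Finset.univ a b = 2)
    (hconn : ∀ S : Finset ι, (∀ a b, Q.bd S a b = 0) → S = ∅ ∨ S = Finset.univ)
    (hcob : ∀ φ : A → B → ZMod 2,
      (∀ i, φ (Q.p i) (Q.x i) + φ (Q.p i) (Q.y i) + φ (Q.q i) (Q.x i) + φ (Q.q i) (Q.y i) = 0) →
      ∃ (α : A → ZMod 2) (β : B → ZMod 2), ∀ a b, Q.cnt Finset.univ a b ≠ 0 → α a + β b = φ a b)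
    (b : B) (S : Finset ι) (hS : ∀ a, Q.bd S a b = 0) :
    (∀ i, Q.atB i b → i ∈ S) ∨ (∀ i ∈ S, ¬ Q.atB i b) := by
  classical
  by_contra hcon
  push Not at hcon
  obtain ⟨⟨i, hib, hiS⟩, ⟨j, hjS, hjb⟩⟩ := hcon
  -- trivial faces
  have htriv : ∀ k, (∀ a b', Q.bd {k} a b' = 0) → False := by
    intro k hk
    rcases hconn {k} hk with h1 | h1
    · exact absurd h1 (Finset.singleton_ne_empty k)
    · have h2 : i ∈ ({k} : Finset ι) := by rw [h1]; exact Finset.mem_univ i
      have h3 : j ∈ ({k} : Finset ι) := by rw [h1]; exact Finset.mem_univ j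
      rw [Finset.mem_singleton] at h2 h3
      rw [h2, ← h3] at hiS
      exact hiS hjS
  have hxy : ∀ k, Q.x k ≠ Q.y k := by
    intro k hk
    apply htriv k
    intro a b'
    unfold QS.bd QS.cnt QS.inc
    rw [Finset.sum_singleton, hk]
    push_cast
    have : ∀ t : ZMod 2, t + t = 0 := fun t => CharTwo.add_self_eq_zero t
    rw [this, mul_zero]
  let N : A → Prop := fun a => ∃ k ∈ S, Q.atA k a ∧ Q.atB k b
  -- a pair (a,b) with a face in S has no face outside S
  have hN : ∀ a, N a → ∀ k, Q.atA k a → Q.atB k b → k ∈ S := by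
    rintro a ⟨k0, hk0, h1, h2⟩ k hka hkb
    by_contra hkS
    have h3 : Q.cnt S a b ≠ 0 := (Q.cnt_ne_zero _ _ _).2 ⟨k0, hk0, h1, h2⟩
    have h4 : Q.cnt (Finset.univ \ S) a b ≠ 0 :=
      (Q.cnt_ne_zero _ _ _).2 ⟨k, by simp [hkS], hka, hkb⟩
    have h5 := Q.cnt_sdiff (Finset.subset_univ S) a b
    have h6 : Q.cnt S a b = 1 := by
      rcases htwo a b with h7 | h7 <;> omega
    have h7 := hS a
    unfold QS.bd at h7
    rw [h6] at h7
    exact absurd h7 (by decide)
  let φ : A → B → ZMod 2 := fun a b' => if b' = b ∧ N a then 1 else 0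
  obtain ⟨α, β, hαβ⟩ := hcob φ (by
    intro k
    by_cases hkb : Q.atB k b
    · have hother : ∀ a, Q.atA k a → (N a ↔ k ∈ S) := by
        intro a ha
        constructor
        · intro h; exact hN a h k ha hkb
        · intro h; exact ⟨k, h, ha, hkb⟩
      have hp := hother (Q.p k) (Or.inl rfl)
      have hq := hother (Q.q k) (Or.inr rfl)
      have hpq : φ (Q.p k) = φ (Q.q k) := by
        funext b'
        simp only [φ, hp, hq]
      rw [hpq]
      have : (2 : ZMod 2) = 0 := by decide
      linear_combination (φ (Q.q k) (Q.x k) + φ (Q.q k) (Q.y k)) * this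
    · unfold QS.atB at hkb
      push Not at hkb
      simp [φ, hkb.1, hkb.2])
  -- pairs
  have hedge : ∀ k a b', Q.atA k a → Q.atB k b' → α a + β b' = φ a b' := by
    intro k a b' h1 h2
    exact hαβ a b' ((Q.cnt_ne_zero _ _ _).2 ⟨k, Finset.mem_univ k, h1, h2⟩)
  have hsame : ∀ k, α (Q.p k) = α (Q.q k) := by
    intro k
    have h1 : ∃ b', Q.atB k b' ∧ b' ≠ b := by
      by_cases h2 : Q.x k = b
      · refine ⟨Q.y k, Or.inr rfl, ?_⟩
        intro h3; exact hxy k (h2.trans h3.symm)
      · exact ⟨Q.x k, Or.inl rfl, h2⟩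
    obtain ⟨b', hb', hne⟩ := h1
    have e1 := hedge k (Q.p k) b' (Or.inl rfl) hb'
    have e2 := hedge k (Q.q k) b' (Or.inr rfl) hb'
    have f1 : ∀ a, φ a b' = 0 := fun a => by simp [φ, hne]
    rw [f1] at e1 e2
    have g1 := CharTwo.add_eq_zero.1 e1
    have g2 := CharTwo.add_eq_zero.1 e2
    rw [g1, g2]
  let S' : Finset ι := Finset.univ.filter (fun k => α (Q.p k) + β b = 1)
  have hS'mem : ∀ k a, Q.atA k a → (k ∈ S' ↔ α a + β b = 1) := by
    intro k a ha
    simp only [S', Finset.mem_filter, Finset.mem_univ, true_and]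
    rcases ha with rfl | rfl
    · exact Iff.rfl
    · rw [hsame k]
  have hS'bd : ∀ a b', Q.bd S' a b' = 0 := by
    intro a b'
    by_cases h1 : α a + β b = 1
    · have h2 : Q.cnt S' a b' = Q.cnt Finset.univ a b' := by
        have h3 := Q.cnt_sdiff (Finset.subset_univ S') a b'
        have h4 : Q.cnt (Finset.univ \ S') a b' = 0 := by
          rw [Q.cnt_eq_zero]
          rintro k hk ⟨h5, _⟩
          rw [Finset.mem_sdiff] at hk
          exact hk.2 ((hS'mem k a h5).2 h1)
        omega
      unfold QS.bd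
      rw [h2]
      rcases htwo a b' with h3 | h3 <;> rw [h3]
      · simp
      · decide
    · apply Q.bd_eq_zero_of_cnt
      rw [Q.cnt_eq_zero]
      rintro k hk ⟨h5, _⟩
      exact h1 ((hS'mem k a h5).1 hk)
  have hjS' : j ∈ S' := by
    rw [hS'mem j (Q.p j) (Or.inl rfl), hedge j (Q.p j) b (Or.inl rfl) hjb]
    have : N (Q.p j) := ⟨j, hjS, Or.inl rfl, hjb⟩
    simp [φ, this]
  have hiS' : i ∉ S' := by
    rw [hS'mem i (Q.p i) (Or.inl rfl), hedge i (Q.p i) b (Or.inl rfl) hib]
    have : ¬ N (Q.p i) := fun h => hiS (hN _ h i (Or.inl rfl) hib)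
    simp [φ, this]
  rcases hconn S' hS'bd with h1 | h1
  · rw [h1] at hjS'; exact absurd hjS' (Finset.notMem_empty j)
  · rw [h1] at hiS'; exact hiS' (Finset.mem_univ i)

/-- Construction of a sphere. -/
theorem IsSph.mk' (hne : Nonempty ι)
    (htwo : ∀ a b, Q.cnt Finset.univ a b = 0 ∨ Q.cnt Finset.univ a b = 2)
    (hconn : ∀ S : Finset ι, (∀ a b, Q.bd S a b = 0) → S = ∅ ∨ S = Finset.univ)
    (hg : ∀ (α : A → ZMod 2) (β : B → ZMod 2),
      (∀ a b, Q.cnt Finset.univ a b ≠ 0 → α a = β b) →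
      (∃ c, (∀ a, α a = c) ∧ ∀ b, β b = c))
    (hcard : Fintype.card ι + 2 = Fintype.card A + Fintype.card B) :
    IsSph Q Finset.univ := by
  classical
  have hP := card_pairs (Q := Q) htwo
  have hT := rank_T (Q := Q) hconn
  have hD := rank_D (Q := Q) hg
  have hr : Fintype.card (Pairs Q) ≤ (Dm Q).rank + (Tm Q).rank := by omega
  have hcob : ∀ φ : A → B → ZMod 2,
      (∀ i, φ (Q.p i) (Q.x i) + φ (Q.p i) (Q.y i) + φ (Q.q i) (Q.x i) + φ (Q.q i) (Q.y i) = 0) →
      ∃ (α : A → ZMod 2) (β : B → ZMod 2),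
        ∀ a b, Q.cnt Finset.univ a b ≠ 0 → α a + β b = φ a b := by
    intro φ hφ
    have hr' : Fintype.card (Pairs Q) ≤ (Tm Q).transpose.rank + (Dm Q).transpose.rank := by
      rw [Matrix.rank_transpose, Matrix.rank_transpose]; omega
    have h0 : (Tm Q).transpose * (Dm Q).transpose = 0 := by
      rw [← Matrix.transpose_mul, Dm_mul_Tm, Matrix.transpose_zero]
    obtain ⟨x, hx⟩ := exact_of_rank _ _ h0 hr' (fun p => φ p.1.1 p.1.2) (by
      funext i
      unfold Matrix.mulVec dotProduct
      simp only [Matrix.transpose_apply, Tm, Pi.zero_apply]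
      have hsupp : ∀ a b, Q.cnt Finset.univ a b = 0 →
          ((Q.inc i a b : ℕ) : ZMod 2) * φ a b = 0 := by
        intro a b h
        have h2 := (Q.cnt_eq_zero _ _ _).1 h i (Finset.mem_univ i)
        rw [(Q.inc_eq_zero i a b).2 h2]; simp
      have h1 : ∑ p : Pairs Q, ((Q.inc i p.1.1 p.1.2 : ℕ) : ZMod 2) * φ p.1.1 p.1.2
          = ∑ p : A × B, ((Q.inc i p.1 p.2 : ℕ) : ZMod 2) * φ p.1 p.2 := by
        have h2 : ∑ p : Pairs Q, ((Q.inc i p.1.1 p.1.2 : ℕ) : ZMod 2) * φ p.1.1 p.1.2
          = ∑ p ∈ Finset.univ.filter (fun p : A × B => Q.cnt Finset.univ p.1 p.2 ≠ 0),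
            ((Q.inc i p.1 p.2 : ℕ) : ZMod 2) * φ p.1 p.2 := by
          rw [Finset.sum_subtype (p := fun p : A × B => Q.cnt Finset.univ p.1 p.2 ≠ 0)]
          intro x; simp
        rw [h2, Finset.sum_filter]
        apply Finset.sum_congr rfl
        intro p _
        by_cases h3 : Q.cnt Finset.univ p.1 p.2 = 0
        · simp only [h3, ne_eq, not_true_eq_false, if_false]
          exact (hsupp _ _ h3).symm
        · rw [if_pos h3]
      rw [h1, ← hφ i, Fintype.sum_prod_type]
      unfold QS.inc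
      push_cast
      have h4 : ∀ a, ∑ b, ((if Q.p i = a then (1 : ZMod 2) else 0) + (if Q.q i = a then 1 else 0)) *
          ((if Q.x i = b then 1 else 0) + (if Q.y i = b then 1 else 0)) * φ a b
          = ((if Q.p i = a then (1 : ZMod 2) else 0) + (if Q.q i = a then 1 else 0)) *
            (φ a (Q.x i) + φ a (Q.y i)) := by
        intro a
        have h5 : ∀ b, ((if Q.p i = a then (1 : ZMod 2) else 0) + (if Q.q i = a then 1 else 0)) *
          ((if Q.x i = b then 1 else 0) + (if Q.y i = b then 1 else 0)) * φ a b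
          = ((if Q.p i = a then (1 : ZMod 2) else 0) + (if Q.q i = a then 1 else 0)) *
            ((if Q.x i = b then φ a b else 0) + (if Q.y i = b then φ a b else 0)) := by
          intro b
          by_cases h6 : Q.x i = b <;> by_cases h7 : Q.y i = b <;> simp [h6, h7] <;> ring
        rw [Finset.sum_congr rfl (fun b _ => h5 b), ← Finset.mul_sum, Finset.sum_add_distrib]
        simp only [Finset.sum_ite_eq, Finset.mem_univ, if_true]
      rw [Finset.sum_congr rfl (fun a _ => h4 a)]
      have h8 : ∀ a, ((if Q.p i = a then (1 : ZMod 2) else 0) + (if Q.q i = a then 1 else 0)) *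
            (φ a (Q.x i) + φ a (Q.y i))
          = (if Q.p i = a then (φ a (Q.x i) + φ a (Q.y i)) else 0)
            + (if Q.q i = a then (φ a (Q.x i) + φ a (Q.y i)) else 0) := by
        intro a
        by_cases h6 : Q.p i = a <;> by_cases h7 : Q.q i = a <;> simp [h6, h7] <;> ring
      rw [Finset.sum_congr rfl (fun a _ => h8 a), Finset.sum_add_distrib]
      simp only [Finset.sum_ite_eq, Finset.mem_univ, if_true]
      ring)
    refine ⟨fun a => x (Sum.inl a), fun b => x (Sum.inr b), ?_⟩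
    intro a b hab
    have h3 := DmT_mulVec (Q := Q) x ⟨(a, b), hab⟩
    rw [hx] at h3
    exact h3.symm
  have hlinkB := link_aux (Q := Q) htwo hconn hcob
  have hlinkA := link_aux (Q := Q.swap)
    (fun b a => by rw [QS.swap_cnt]; exact htwo a b)
    (fun S hS => hconn S (fun a b => by rw [← QS.swap_bd]; exact hS b a))
    (fun φ hφ => by
      obtain ⟨α, β, h⟩ := hcob (fun a b => φ b a) (fun i => by
        have := hφ i
        simp only [QS.swap] at this
        linear_combination this)
      refine ⟨β, α, ?_⟩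
      intro b a hab
      rw [QS.swap_cnt] at hab
      rw [add_comm]; exact h a b hab)
  refine ⟨Finset.univ_nonempty, htwo, fun S _ hS => hconn S hS, ?_, ?_, ?_⟩
  · intro b S _ hS
    rcases hlinkB b S hS with h | h
    · left; intro i _ hi; exact h i hi
    · right; exact h
  · intro a S _ hS
    rcases hlinkA a S (fun b => by rw [QS.swap_bd]; exact hS b) with h | h
    · left; intro i _ hi; exact h i hi
    · right; exact h
  · intro Z hZs hZr hZc
    obtain ⟨x, hx⟩ := exact_of_rank (Dm Q) (Tm Q) (Dm_mul_Tm Q) hr (fun p => Z p.1.1 p.1.2) (by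
      funext s
      unfold Matrix.mulVec dotProduct
      rcases s with a | b
      · have h1 := sum_pairs_row Q Z hZs a
        rw [hZr a] at h1
        simp only [Pi.zero_apply]
        rw [← h1]
        apply Finset.sum_congr rfl
        intro p _
        unfold Dm
        by_cases h3 : p.1.1 = a <;> simp [h3]
      · have h1 := sum_pairs_col Q Z hZs b
        rw [hZc b] at h1
        simp only [Pi.zero_apply]
        rw [← h1]
        apply Finset.sum_congr rfl
        intro p _
        unfold Dm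
        by_cases h3 : p.1.2 = b <;> simp [h3])
    refine ⟨Finset.univ.filter (fun i => x i = 1), Finset.subset_univ _, ?_⟩
    intro a b
    by_cases h2 : Q.cnt Finset.univ a b = 0
    · rw [hZs a b h2]
      have := Q.cnt_mono (Finset.subset_univ (Finset.univ.filter (fun i => x i = 1))) a b
      exact Q.bd_eq_zero_of_cnt (by omega)
    · have h3 := Tm_mulVec (Q := Q) x ⟨(a, b), h2⟩
      rw [hx] at h3
      exact h3.symm

end

end Helper83.PY
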