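import Pool.Agent.Helper83.PY.Basic

open Finset

set_option linter.unusedSectionVars false

namespace Helper83.PY

variable {ι A B : Type*} [DecidableEq ι] [DecidableEq A] [DecidableEq B] [Fintype A] [Fintype B]

theorem del_self₁ {v z : A} {h f : B} : del v z h f v h = 1 := by simp [del]
theorem del_self₂ {v z : A} {h f : B} : del v z h f v f = 1 := by simp [del]
theorem del_self₃ {v z : A} {h f : B} : del v z h f z h = 1 := by simp [del]
theorem del_self₄ {v z : A} {h f : B} : del v z h f z f = 1 := by simp [del]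

theorem del_A {v z : A} {h f : B} {a : A} (h1 : a ≠ v) (h2 : a ≠ z) (b : B) :
    del v z h f a b = 0 := by simp [del, h1, h2]
theorem del_B {v z : A} {h f : B} {b : B} (h1 : b ≠ h) (h2 : b ≠ f) (a : A) :
    del v z h f a b = 0 := by simp [del, h1, h2]

theorem del_eq_one {v z : A} {h f : B} {a : A} {b : B} (h1 : del v z h f a b = 1) :
    (a = v ∨ a = z) ∧ (b = h ∨ b = f) := by
  unfold del at h1
  split_ifs at h1 with h2
  · exact h2
  · exact absurd h1 (by decide)

/-- columns: sum over the ends -/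
theorem sum_del_row {v z : A} {h f : B} (hhf : h ≠ f) (a : A) :
    (∑ b, del v z h f a b) = 0 := by
  unfold del
  by_cases h1 : a = v ∨ a = z
  · simp only [h1, true_and]
    have : ∀ b : B, (if b = h ∨ b = f then (1 : ZMod 2) else 0)
        = (if b = h then 1 else 0) + (if b = f then 1 else 0) := by
      intro b
      by_cases h2 : b = h
      · subst h2; simp [hhf]
      · simp [h2]
    rw [Finset.sum_congr rfl (fun b _ => this b), Finset.sum_add_distrib]
    simp only [Finset.sum_ite_eq', Finset.mem_univ, if_true]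
    decide
  · simp [h1]

theorem sum_del_col {v z : A} {h f : B} (hvz : v ≠ z) (b : B) :
    (∑ a, del v z h f a b) = 0 := by
  have h1 := sum_del_row (v := h) (z := f) (h := v) (f := z) hvz b
  rw [← h1]
  apply Finset.sum_congr rfl
  intro a _
  unfold del
  simp only [and_comm]

/-- an even function supported on the four corners is a multiple of the 4-cycle -/
theorem corner_eq {v z : A} {h f : B} (hvz : v ≠ z) (hhf : h ≠ f) {W : A → B → ZMod 2}
    (hs : ∀ a b, W a b ≠ 0 → (a = v ∨ a = z) ∧ (b = h ∨ b = f))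
    (hr : ∀ a, ∑ b, W a b = 0) (hc : ∀ b, ∑ a, W a b = 0) :
    (∀ a b, W a b = 0) ∨ (∀ a b, W a b = del v z h f a b) := by
  have hrow : ∀ a, W a h + W a f = 0 := by
    intro a
    have h1 := hr a
    have h2 : ∑ b, W a b = ∑ b ∈ ({h, f} : Finset B), W a b := by
      symm
      apply Finset.sum_subset (Finset.subset_univ _)
      intro b _ hb
      by_contra h3
      have := (hs a b h3).2
      simp only [Finset.mem_insert, Finset.mem_singleton] at hb
      exact hb this
    rw [h2, Finset.sum_pair hhf] at h1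
    exact h1
  have hcol : W v h + W z h = 0 := by
    have h1 := hc h
    have h2 : ∑ a, W a h = ∑ a ∈ ({v, z} : Finset A), W a h := by
      symm
      apply Finset.sum_subset (Finset.subset_univ _)
      intro a _ ha
      by_contra h3
      have := (hs a h h3).1
      simp only [Finset.mem_insert, Finset.mem_singleton] at ha
      exact ha this
    rw [h2, Finset.sum_pair hvz] at h1
    exact h1
  have e1 : W v f = W v h := (CharTwo.add_eq_zero.1 (hrow v)).symm
  have e2 : W z f = W z h := (CharTwo.add_eq_zero.1 (hrow z)).symm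
  have e3 : W z h = W v h := (CharTwo.add_eq_zero.1 hcol).symm
  have h0 : ∀ a b, ¬ ((a = v ∨ a = z) ∧ (b = h ∨ b = f)) → W a b = 0 := by
    intro a b hab
    by_contra h3
    exact hab (hs a b h3)
  rcases zmod2_cases (W v h) with hv | hv
  · left
    intro a b
    by_cases hab : (a = v ∨ a = z) ∧ (b = h ∨ b = f)
    · rcases hab with ⟨rfl | rfl, rfl | rfl⟩
      · exact hv
      · rw [e1]; exact hv
      · rw [e3]; exact hv
      · rw [e2, e3]; exact hv
    · exact h0 a b hab
  · right
    intro a b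
    by_cases hab : (a = v ∨ a = z) ∧ (b = h ∨ b = f)
    · have : del v z h f a b = 1 := by simp [del, hab]
      rw [this]
      rcases hab with ⟨rfl | rfl, rfl | rfl⟩
      · exact hv
      · rw [e1]; exact hv
      · rw [e3]; exact hv
      · rw [e2, e3]; exact hv
    · rw [h0 a b hab]; simp [del, hab]

section
variable {Q : QS ι A B} {E K : Finset ι} {v z : A} {h f : B}

theorem cnt_le_two (hE : IsSph Q E) (hK : K ⊆ E) (a : A) (b : B) : Q.cnt K a b ≤ 2 := by
  have h1 := Q.cnt_mono hK a b
  rcases hE.two a b with h2 | h2 <;> omega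

theorem cnt_of_bd_one (hE : IsSph Q E) (hK : K ⊆ E) {a : A} {b : B} (h1 : Q.bd K a b = 1) :
    Q.cnt K a b = 1 := by
  have h2 := cnt_le_two hE hK a b
  unfold QS.bd at h1
  interval_cases h3 : Q.cnt K a b
  · simp at h1
  · rfl
  · exact absurd h1 (by decide)

theorem cnt_of_bd_zero (hE : IsSph Q E) (hK : K ⊆ E) {a : A} {b : B} (h1 : Q.bd K a b = 0) :
    Q.cnt K a b = 0 ∨ Q.cnt K a b = 2 := by
  have h2 := cnt_le_two hE hK a b
  unfold QS.bd at h1
  interval_cases h3 : Q.cnt K a b
  · left; rfl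
  · exact absurd h1 (by decide)
  · right; rfl

theorem out_of_bd_one (hE : IsSph Q E) (hK : K ⊆ E) {a : A} {b : B} (h1 : Q.bd K a b = 1) :
    ∃ i ∈ E \ K, Q.atA i a ∧ Q.atB i b := by
  have h2 := cnt_of_bd_one hE hK h1
  have h3 := Q.cnt_sdiff hK a b
  have h4 : Q.cnt E a b = 2 := by
    rcases hE.two a b with h5 | h5
    · omega
    · exact h5
  have h5 : Q.cnt (E \ K) a b ≠ 0 := by omega
  exact (Q.cnt_ne_zero _ _ _).1 h5

theorem bd_one_of_both (hE : IsSph Q E) (hK : K ⊆ E) {a : A} {b : B} (h1 : Q.cnt K a b ≠ 0)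
    (h2 : Q.cnt (E \ K) a b ≠ 0) : Q.bd K a b = 1 := by
  have h3 := Q.cnt_sdiff hK a b
  have h4 : Q.cnt K a b = 1 := by
    rcases hE.two a b with h5 | h5 <;> omega
  unfold QS.bd; rw [h4]; simp

theorem reg_ne_all (hE : IsSph Q E) (R : IsReg Q K v z h f) : K ≠ E := by
  intro h1
  have h2 := R.bd v h
  rw [h1, hE.bd_all, del_self₁] at h2
  exact absurd h2 (by decide)

theorem reg_ne_empty (R : IsReg Q K v z h f) : K ≠ ∅ := by
  intro h1
  have h2 := R.bd v h
  rw [h1, Q.bd_empty, del_self₁] at h2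
  exact absurd h2 (by decide)

theorem reg_sub_zero (hE : IsSph Q E) (hK : K ⊆ E) (R : IsReg Q K v z h f) {S : Finset ι}
    (hS : S ⊆ K) (h0 : ∀ a b, Q.bd S a b = 0) : S = ∅ := by
  rcases hE.conn S (hS.trans hK) h0 with h1 | h1
  · exact h1
  · exfalso
    apply reg_ne_all hE R
    exact Finset.Subset.antisymm hK (h1 ▸ hS)

theorem reg_sub_full (hE : IsSph Q E) (hK : K ⊆ E) (R : IsReg Q K v z h f) {S : Finset ι}
    (hS : S ⊆ K) (h0 : ∀ a b, Q.bd S a b = del v z h f a b) : S = K := by
  have h1 : K \ S = ∅ := by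
    apply reg_sub_zero hE hK R Finset.sdiff_subset
    intro a b
    rw [Q.bd_sdiff hS, R.bd, h0]
    exact CharTwo.add_self_eq_zero _
  exact Finset.Subset.antisymm hS (Finset.sdiff_eq_empty_iff_subset.1 h1)

/-- a subset of a region with vanishing boundary at the hub `b` misses this hub -/
theorem reg_link_hub (hE : IsSph Q E) (hK : K ⊆ E) (R : IsReg Q K v z h f) {S : Finset ι}
    (hS : S ⊆ K) {b : B} (hb : b = h ∨ b = f) (h0 : ∀ a, Q.bd S a b = 0) :
    ∀ i ∈ S, ¬ Q.atB i b := by
  rcases hE.linkB b S (hS.trans hK) h0 with h1 | h1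
  · exfalso
    have h2 : Q.bd K v b = 1 := by
      rw [R.bd]; rcases hb with rfl | rfl
      · exact del_self₁
      · exact del_self₂
    obtain ⟨i, hi, _, hib⟩ := out_of_bd_one hE hK h2
    rw [Finset.mem_sdiff] at hi
    exact hi.2 (hS (h1 i hi.1 hib))
  · exact h1

theorem reg_link_end (hE : IsSph Q E) (hK : K ⊆ E) (R : IsReg Q K v z h f) {S : Finset ι}
    (hS : S ⊆ K) {a : A} (ha : a = v ∨ a = z) (h0 : ∀ b, Q.bd S a b = 0) :
    ∀ i ∈ S, ¬ Q.atA i a := by
  rcases hE.linkA a S (hS.trans hK) h0 with h1 | h1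
  · exfalso
    have h2 : Q.bd K a h = 1 := by
      rw [R.bd]; rcases ha with rfl | rfl
      · exact del_self₁
      · exact del_self₃
    obtain ⟨i, hi, hia, _⟩ := out_of_bd_one hE hK h2
    rw [Finset.mem_sdiff] at hi
    exact hi.2 (hS (h1 i hi.1 hia))
  · exact h1

/-- Splitting of a region at a common neighbour `w` of the two hubs. -/
theorem reg_split (hE : IsSph Q E) (hK : K ⊆ E) (R : IsReg Q K v z h f) {w : A}
    (hwv : w ≠ v) (hwz : w ≠ z) (h1 : Q.cnt K w h ≠ 0) (h2 : Q.cnt K w f ≠ 0) :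
    ∃ K1 ⊆ K, IsReg Q K1 v w h f ∧ IsReg Q (K \ K1) w z h f := by
  have hcE : ∀ a b, Q.cnt K a b ≠ 0 → Q.cnt E a b ≠ 0 := by
    intro a b h3
    have := Q.cnt_mono hK a b
    omega
  have hcK : ∀ a b, Q.bd K a b = 1 → Q.cnt K a b ≠ 0 := by
    intro a b h3 h4
    have := Q.bd_eq_zero_of_cnt h4
    rw [h3] at this
    exact absurd this (by decide)
  have hsup : ∀ a b, del v w h f a b ≠ 0 → Q.cnt K a b ≠ 0 := by
    intro a b h3
    have h4 : del v w h f a b = 1 := by
      rcases zmod2_cases (del v w h f a b) with h5 | h5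
      · exact absurd h5 h3
      · exact h5
    rcases del_eq_one h4 with ⟨rfl | rfl, rfl | rfl⟩
    · exact hcK _ _ (by rw [R.bd]; exact del_self₁)
    · exact hcK _ _ (by rw [R.bd]; exact del_self₂)
    · exact h1
    · exact h2
  obtain ⟨X, hX, hbX⟩ := hE.ml (del v w h f)
    (fun a b h3 => by
      by_contra h4
      exact hcE a b (hsup a b h4) h3)
    (fun a => sum_del_row R.hf a) (fun b => sum_del_col (Ne.symm hwv) b)
  -- split X
  have hXK : X ∩ K ⊆ X := Finset.inter_subset_left
  have hW : ∀ a b, Q.bd (X \ (X ∩ K)) a b = del v w h f a b + Q.bd (X ∩ K) a b := by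
    intro a b
    rw [Q.bd_sdiff hXK, hbX]
  have hsubE : X \ (X ∩ K) ⊆ E \ K := by
    intro i hi
    rw [Finset.mem_sdiff, Finset.mem_inter] at hi
    rw [Finset.mem_sdiff]
    exact ⟨hX hi.1, fun h3 => hi.2 ⟨hi.1, h3⟩⟩
  have hWs : ∀ a b, Q.bd (X \ (X ∩ K)) a b ≠ 0 → (a = v ∨ a = z) ∧ (b = h ∨ b = f) := by
    intro a b h3
    have h4 : Q.cnt (E \ K) a b ≠ 0 := by
      intro h5
      have h6 := Q.cnt_mono hsubE a b
      exact h3 (Q.bd_eq_zero_of_cnt (by omega))
    have h5 : Q.cnt K a b ≠ 0 := by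
      intro h6
      rw [hW] at h3
      have h7 := Q.cnt_mono (Finset.inter_subset_right : X ∩ K ⊆ K) a b
      rw [Q.bd_eq_zero_of_cnt (show Q.cnt (X ∩ K) a b = 0 by omega), add_zero] at h3
      exact hsup a b h3 h6
    have h6 := bd_one_of_both hE hK h5 h4
    rw [R.bd] at h6
    exact del_eq_one h6
  have hcor := corner_eq R.vz R.hf hWs (fun a => Q.sum_bd_B _ a) (fun b => Q.sum_bd_A _ b)
  have key : ∀ a b, del v w h f a b + del v z h f a b = del w z h f a b := by
    intro a b
    unfold del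
    have hvz := R.vz
    by_cases hb : b = h ∨ b = f
    · simp only [hb, and_true]
      by_cases e1 : a = v
      · subst e1
        have e2 : a ≠ w := Ne.symm hwv
        have e3 : (1 : ZMod 2) + 1 = 0 := by decide
        simp [e2, hvz, e3]
      · by_cases e2 : a = w
        · subst e2; simp [e1, hwz]
        · by_cases e3 : a = z
          · subst e3; simp [e1, e2]
          · simp [e1, e2, e3]
    · simp [hb]
  rcases hcor with h3 | h3
  · refine ⟨X ∩ K, Finset.inter_subset_right, ⟨Ne.symm hwv, R.hf, ?_⟩, ⟨hwz, R.hf, ?_⟩⟩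
    · intro a b
      have h4 := hW a b
      rw [h3] at h4
      exact (CharTwo.add_eq_zero.1 h4.symm).symm
    · intro a b
      have h4 := hW a b
      rw [h3] at h4
      have h5 : del v w h f a b = Q.bd (X ∩ K) a b := CharTwo.add_eq_zero.1 h4.symm
      rw [Q.bd_sdiff Finset.inter_subset_right, R.bd, ← h5, add_comm]
      exact key a b
  · have h5 : ∀ a b, Q.bd (X ∩ K) a b = del w z h f a b := by
      intro a b
      have h4 := hW a b
      rw [h3] at h4
      rw [← key a b, h4]
      have : (2 : ZMod 2) = 0 := by decide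
      linear_combination (-(del v w h f a b)) * this
    refine ⟨K \ (X ∩ K), Finset.sdiff_subset, ⟨Ne.symm hwv, R.hf, ?_⟩, ⟨hwz, R.hf, ?_⟩⟩
    · intro a b
      rw [Q.bd_sdiff Finset.inter_subset_right, R.bd, h5, ← key a b]
      have : (2 : ZMod 2) = 0 := by decide
      linear_combination (del v z h f a b) * this
    · intro a b
      have e : K \ (K \ (X ∩ K)) = X ∩ K := by
        rw [Finset.sdiff_sdiff_eq_self Finset.inter_subset_right]
      rw [e, h5]

end

end Helper83.PY
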