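import Pool.Agent.Helper83.PY.Defs3
import Pool.Agent.Helper83.PY.St.P1

/-!
Explicit tables of block regions and their compositions (helper83).
-/

open Finset

set_option linter.unusedSectionVars false
set_option linter.unusedSimpArgs false
set_option linter.unusedVariables false

namespace Helper83.PY

variable {ι A B : Type*} [DecidableEq ι] [DecidableEq A] [DecidableEq B] [Fintype A] [Fintype B]
variable {Q : QS ι A B} {E K : Finset ι} {v z : A} {h f : B}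

/-- table of a block region, explicit form -/
theorem block_tabx (hE : IsSph Q E) (hK : K ⊆ E) (R : IsReg Q K v z h f)
    (hbl : ∀ a, a ≠ v → a ≠ z → Q.cnt K a h = 0 ∨ Q.cnt K a f = 0) :
    (K.card % 3 = 0 → TE Q K v z h f 0) ∧ (K.card % 3 = 1 → TO Q K v z h f 2) ∧
      (K.card % 3 = 2 → TO Q K v z h f 1) := by
  have hcl : Claims ι A B K.card := claims_all ι A B K.card
  have hs := block_sph hE hK R hbl
  have hhf := R.hf
  obtain ⟨i1, hi1, hi1a, hi1b⟩ := reg_corner R (Or.inl rfl : v = v ∨ v = z) (Or.inl rfl : h = h ∨ h = f)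
  obtain ⟨i2, hi2, hi2a, hi2b⟩ := reg_corner R (Or.inr rfl : z = v ∨ z = z) (Or.inl rfl : h = h ∨ h = f)
  obtain ⟨i3, hi3, hi3a, hi3b⟩ := reg_corner R (Or.inl rfl : v = v ∨ v = z) (Or.inr rfl : f = h ∨ f = f)
  have hub : ∀ i, Q.atB i h ∨ Q.atB i f → (Q.ren f h).atB i h := fun i => (ren_atB_hub hhf i).2
  obtain ⟨SA0, SB0, a1, a2, a3⟩ := hcl.A0 _ K h hs rfl ⟨i1, hi1, hub i1 (Or.inl hi1b)⟩
  obtain ⟨SAv, SBv, b0, b1, b2, b3⟩ := hcl.A1 _ K h {v} hs rfl (Finset.singleton_nonempty v)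
    (fun a ha => by
      rw [Finset.mem_singleton] at ha; subst ha
      exact ⟨i1, hi1, hi1a, hub i1 (Or.inl hi1b)⟩)
  obtain ⟨SAz, SBz, c0, c1, c2, c3⟩ := hcl.A1 _ K h {z} hs rfl (Finset.singleton_nonempty z)
    (fun a ha => by
      rw [Finset.mem_singleton] at ha; subst ha
      exact ⟨i2, hi2, hi2a, hub i2 (Or.inl hi2b)⟩)
  obtain ⟨SAvz, SBvz, d0, d1, d2, d3⟩ := hcl.A1 _ K h {v, z} hs rfl (Finset.insert_nonempty v {z})
    (fun a ha => by
      rw [Finset.mem_insert, Finset.mem_singleton] at ha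
      rcases ha with rfl | rfl
      · exact ⟨i1, hi1, hi1a, hub i1 (Or.inl hi1b)⟩
      · exact ⟨i2, hi2, hi2a, hub i2 (Or.inl hi2b)⟩)
  obtain ⟨SAf, SBf, f1, f2, f3⟩ := hcl.Af _ K h i3 hs rfl hi3 (hub i3 (Or.inr hi3b))
  rw [Finset.card_singleton] at b3 c3
  rw [Finset.card_pair R.vz] at d3
  have ev : v ∈ SAv := b0 (Finset.mem_singleton_self v)
  have ez : z ∈ SAz := c0 (Finset.mem_singleton_self z)
  have evz1 : v ∈ SAvz := d0 (Finset.mem_insert_self v _)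
  have evz2 : z ∈ SAvz := d0 (Finset.mem_insert_of_mem (Finset.mem_singleton_self z))
  have hitf : Hit Q K SAf (insert f (SBf.erase f)) := by
    intro i hi
    by_cases hif : i = i3
    · subst hif; exact Hit.of_atB hi3b (Finset.mem_insert_self _ _)
    · exact (hit_ren f1 f2).mono (Finset.Subset.refl _) (Finset.subset_insert _ _) i
        (Finset.mem_erase.2 ⟨hif, hi⟩)
  have hne : h ∉ insert f (SBf.erase f) := by
    intro h1
    rcases Finset.mem_insert.1 h1 with h2 | h2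
    · exact hhf h2
    · exact f1 (Finset.mem_of_mem_erase h2)
  have cer : ∀ SB : Finset B, (SB.erase f).card ≤ SB.card := fun SB => Finset.card_erase_le
  have cin : (insert f (SBf.erase f)).card ≤ SBf.card + 1 :=
    (Finset.card_insert_le _ _).trans (Nat.add_le_add_right (cer SBf) 1)
  have hh : ∀ SB : Finset B, h ∉ SB → h ∉ SB.erase f := fun SB h1 h2 =>
    h1 (Finset.mem_of_mem_erase h2)
  have hff : ∀ SB : Finset B, f ∉ SB.erase f := fun SB => Finset.notMem_erase f SB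
  have key : ∀ c0' c1' c2' cf' : ℤ,
      (3 * ((SA0.card + SB0.card : ℕ) : ℤ) ≤ K.card + c0') →
      (3 * ((SAv.card + SBv.card : ℕ) : ℤ) ≤ K.card + c1') →
      (3 * ((SAz.card + SBz.card : ℕ) : ℤ) ≤ K.card + c1') →
      (3 * ((SAvz.card + SBvz.card : ℕ) : ℤ) ≤ K.card + c2') →
      (3 * ((SAf.card + SBf.card : ℕ) : ℤ) + 3 ≤ K.card + cf') →
      Tab Q K v z h f c0' c1' c2' cf' := by
    intro c0' c1' c2' cf' g0 gv gz gvz gf
    refine ⟨⟨SA0, SB0.erase f, hh _ a1, hff _, hit_ren a1 a2, ?_⟩,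
      ⟨SAv, SBv.erase f, ev, hh _ b1, hff _, hit_ren b1 b2, ?_⟩,
      ⟨SAz, SBz.erase f, ez, hh _ c1, hff _, hit_ren c1 c2, ?_⟩,
      ⟨SAvz, SBvz.erase f, evz1, evz2, hh _ d1, hff _, hit_ren d1 d2, ?_⟩,
      ⟨SAf, insert f (SBf.erase f), hne, Finset.mem_insert_self _ _, hitf, ?_⟩⟩
    · have := cer SB0; push_cast at *; omega
    · have := cer SBv; push_cast at *; omega
    · have := cer SBz; push_cast at *; omega
    · have := cer SBvz; push_cast at *; omega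
    · push_cast at *; omega
  refine ⟨fun hm => ?_, fun hm => ?_, fun hm => ?_⟩ <;> apply key <;> (push_cast; omega)

theorem tab_hit_union {K1 K2 : Finset ι} (hK1 : K1 ⊆ K) (hK2 : K2 = K \ K1)
    {SA SA' : Finset A} {SB SB' : Finset B} (g1 : Hit Q K1 SA SB) (g2 : Hit Q K2 SA' SB') :
    Hit Q K (SA ∪ SA') (SB ∪ SB') := by
  have hU : K1 ∪ K2 = K := by rw [hK2]; exact Finset.union_sdiff_of_subset hK1
  rw [← hU]; exact g1.union g2

theorem tab_card {K1 K2 : Finset ι} (hK1 : K1 ⊆ K) (hK2 : K2 = K \ K1) :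
    (K1.card : ℤ) + K2.card = K.card := by
  have hc : K1.card + K2.card = K.card := by
    rw [hK2, Finset.card_sdiff_of_subset hK1]
    have := Finset.card_le_card hK1
    omega
  exact_mod_cast hc

/-- odd + odd = even -/
theorem comp_OO {K1 K2 : Finset ι} {w : A} (hK1 : K1 ⊆ K) (hK2 : K2 = K \ K1) {m1 m2 : ℤ}
    (t1 : TO Q K1 v w h f m1) (t2 : TO Q K2 w z h f m2) : TE Q K v z h f (m1 + m2 - 3) := by
  have hcz := tab_card hK1 hK2
  have hit : ∀ {SA SA' : Finset A} {SB SB' : Finset B}, Hit Q K1 SA SB → Hit Q K2 SA' SB' →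
      Hit Q K (SA ∪ SA') (SB ∪ SB') := fun g1 g2 => tab_hit_union hK1 hK2 g1 g2
  have uA : ∀ S T : Finset A, (S ∪ T).card ≤ S.card + T.card := fun S T => Finset.card_union_le S T
  have uB : ∀ S T : Finset B, (S ∪ T).card ≤ S.card + T.card := fun S T => Finset.card_union_le S T
  obtain ⟨⟨SA10, SB10, a1, a2, a3, a4⟩, ⟨SA11, SB11, b0, b1, b2, b3, b4⟩,
      ⟨SA12, SB12, c0, c1, c2, c3, c4⟩, ⟨SA13, SB13, d0, d0', d1, d2, d3, d4⟩,
      ⟨SA14, SB14, e1, e2, e3, e4⟩⟩ := t1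
  obtain ⟨⟨SA20, SB20, a1', a2', a3', a4'⟩, ⟨SA21, SB21, b0', b1', b2', b3', b4'⟩,
      ⟨SA22, SB22, c0', c1', c2', c3', c4'⟩, ⟨SA23, SB23, d0x, d0'', d1', d2', d3', d4'⟩,
      ⟨SA24, SB24, e1', e2', e3', e4'⟩⟩ := t2
  refine ⟨⟨SA12 ∪ SA21, SB12 ∪ SB21, notMem_union' c1 b1', notMem_union' c2 b2',
      hit c3 b3', ?_⟩, ⟨SA11 ∪ SA20, SB11 ∪ SB20, Finset.mem_union_left _ b0,
      notMem_union' b1 a1', notMem_union' b2 a2', hit b3 a3', ?_⟩,
      ⟨SA10 ∪ SA22, SB10 ∪ SB22, Finset.mem_union_right _ c0', notMem_union' a1 c1',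
      notMem_union' a2 c2', hit a3 c3', ?_⟩,
      ⟨SA11 ∪ SA22, SB11 ∪ SB22, Finset.mem_union_left _ b0, Finset.mem_union_right _ c0',
      notMem_union' b1 c1', notMem_union' b2 c2', hit b3 c3', ?_⟩,
      ⟨SA14 ∪ SA24, SB14 ∪ SB24, notMem_union' e1 e1', Finset.mem_union_left _ e2,
      hit e3 e3', ?_⟩⟩
  · have := card_union_lt' c0 b0'; have := uB SB12 SB21; push_cast at *; omega
  · have := uA SA11 SA20; have := uB SB11 SB20; push_cast at *; omega
  · have := uA SA10 SA22; have := uB SB10 SB22; push_cast at *; omega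
  · have := uA SA11 SA22; have := uB SB11 SB22; push_cast at *; omega
  · have := uA SA14 SA24; have := card_union_lt' e2 e2'; push_cast at *; omega

/-- a region has only one of the two extra common neighbours (planarity) -/
theorem planar_regx (hE : IsSph Q E) (hK : K ⊆ E) (R : IsReg Q K v z h f) {w : A} {y : B}
    (hwv : w ≠ v) (hwz : w ≠ z) (hyh : y ≠ h) (hyf : y ≠ f)
    (w1 : Q.cnt K w h ≠ 0) (w2 : Q.cnt K w f ≠ 0) (y1 : Q.cnt K v y ≠ 0) (y2 : Q.cnt K z y ≠ 0) :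
    False := by
  obtain ⟨K1, hK1, R1, R2⟩ := reg_split hE hK R hwv hwz w1 w2
  have hvz := R.vz
  have hK1E : K1 ⊆ E := hK1.trans hK
  have hK2E : K \ K1 ⊆ E := Finset.sdiff_subset.trans hK
  -- `K \ K1` has no face at `v`, `K1` has no face at `z`
  have n2 : ∀ i ∈ K \ K1, ¬ Q.atA i v := by
    rcases hE.linkA v (K \ K1) hK2E (fun b => by rw [R2.bd]; exact del_A (Ne.symm hwv) hvz b)
      with h1 | h1
    · exfalso
      obtain ⟨i, hi, hiv, hih⟩ := reg_corner R1 (Or.inl rfl : v = v ∨ v = w)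
        (Or.inl rfl : h = h ∨ h = f)
      exact (Finset.mem_sdiff.1 (h1 i (hK1E hi) hiv)).2 hi
    · exact h1
  have n1 : ∀ i ∈ K1, ¬ Q.atA i z := by
    rcases hE.linkA z K1 hK1E (fun b => by rw [R1.bd]; exact del_A (Ne.symm hvz) (Ne.symm hwz) b)
      with h1 | h1
    · exfalso
      obtain ⟨i, hi, hiz, hih⟩ := reg_corner R2 (Or.inr rfl : z = w ∨ z = z)
        (Or.inl rfl : h = h ∨ h = f)
      exact (Finset.mem_sdiff.1 hi).2 (h1 i (hK2E hi) hiz)
    · exact h1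
  obtain ⟨i, hi, hiv, hiy⟩ := (Q.cnt_ne_zero _ _ _).1 y1
  obtain ⟨j, hj, hjz, hjy⟩ := (Q.cnt_ne_zero _ _ _).1 y2
  have hi1 : i ∈ K1 := by
    by_contra h1
    exact n2 i (Finset.mem_sdiff.2 ⟨hi, h1⟩) hiv
  have hj2 : j ∉ K1 := fun h1 => n1 j h1 hjz
  rcases hE.linkB y K1 hK1E (fun a => by rw [R1.bd]; exact del_B hyh hyf a) with h1 | h1
  · exact hj2 (h1 j (hK hj) hjy)
  · exact h1 i hi1 hiy

end Helper83.PY
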