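import Pool.Agent.Helper83.PY.Defs3
import Pool.Agent.Helper83.PY.Tabs
import Pool.Agent.Helper83.PY.St.P3

/-!
Segments of the faces at `u` (helper83): tools for Lemma Z and for the odd case.
-/

open Finset

set_option linter.unusedSectionVars false
set_option linter.unusedSimpArgs false
set_option linter.unusedVariables false

namespace Helper83.PY

variable {ι : Type} [DecidableEq ι] {A B : Type} [DecidableEq A] [DecidableEq B] [Fintype A]
  [Fintype B] {Q : QS ι A B} {E D : Finset ι} {u : A} {h f : B} {g : ι}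

/-- `D` is a segment of faces at `u`, from `h` to `f`, not containing the far face `g`. -/
structure Seg (Q : QS ι A B) (E D : Finset ι) (u : A) (h f : B) (g : ι) : Prop where
  sph : IsSph Q E
  sub : D ⊆ E
  atu : ∀ i ∈ D, Q.atA i u
  gE : g ∈ E
  gu : Q.atA g u
  gh : Q.atB g h
  gD : g ∉ D
  bd : ∀ c, Q.bd D u c = if c = h ∨ c = f then 1 else 0
  hf : h ≠ f

theorem single_reg (hE : IsSph Q E) {e : ι} (he : e ∈ E) {v w : A} {h f : B}
    (hvw : v ≠ w) (hhf : h ≠ f) (hv : Q.atA e v) (hw : Q.atA e w) (hh : Q.atB e h)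
    (hf : Q.atB e f) : IsReg Q {e} v w h f := by
  have h1 := compl_reg hE (Finset.erase_subset e E) (erase_reg hE he hvw hhf hv hw hh hf)
  have h2 : E \ E.erase e = {e} := by
    ext i; simp only [Finset.mem_sdiff, Finset.mem_erase, Finset.mem_singleton]
    constructor
    · rintro ⟨h3, h4⟩
      by_contra h5
      exact h4 ⟨h5, h3⟩
    · rintro rfl
      exact ⟨he, fun h3 => h3.1 rfl⟩
  rw [h2] at h1; exact h1

theorem cnt_pos_of_mem {S : Finset ι} {i : ι} (hi : i ∈ S) {a : A} {b : B} (ha : Q.atA i a)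
    (hb : Q.atB i b) : Q.cnt S a b ≠ 0 := (Q.cnt_ne_zero S a b).2 ⟨i, hi, ha, hb⟩

/-- adjacency from `cnt` -/
theorem adj_iff {S : Finset ι} {a : A} {b : B} : Adj Q S a b ↔ Q.cnt S a b ≠ 0 :=
  (Q.cnt_ne_zero S a b).symm

namespace Seg

variable (s : Seg Q E D u h f g)
include s

theorem cntD_h : Q.cnt D u h = 1 := cnt_of_bd_one s.sph s.sub (by rw [s.bd]; simp)
theorem cntD_f : Q.cnt D u f = 1 := cnt_of_bd_one s.sph s.sub (by rw [s.bd]; simp)

/-- a face of `E` at `(u,h)` is `g` or in `D` -/
theorem at_uh {S : Finset ι} (hS : S ⊆ E) (hg : g ∉ S) (hD : Disjoint S D) : Q.cnt S u h = 0 := by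
  have h1 : Q.cnt (insert g (S ∪ D)) u h ≤ 2 := by
    apply cnt_le_two s.sph
    intro i hi
    rcases Finset.mem_insert.1 hi with h2 | h2
    · rw [h2]; exact s.gE
    · rcases Finset.mem_union.1 h2 with h3 | h3
      · exact hS h3
      · exact s.sub h3
  have hn : g ∉ S ∪ D := by
    rw [Finset.mem_union]; rintro (h2 | h2)
    · exact hg h2
    · exact s.gD h2
  have h2 : Q.cnt (insert g (S ∪ D)) u h = Q.inc g u h + (Q.cnt S u h + Q.cnt D u h) := by
    unfold QS.cnt
    rw [Finset.sum_insert hn, Finset.sum_union hD]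
  have h3 : Q.inc g u h ≠ 0 := by
    intro h4
    exact (Q.inc_eq_zero g u h).1 h4 ⟨s.gu, s.gh⟩
  have h4 := s.cntD_h
  omega

/-- interior pairs -/
theorem inner {c : B} (h1 : c ≠ h) (h2 : c ≠ f) (h3 : Q.cnt D u c ≠ 0) :
    Q.cnt (E \ D) u c = 0 := by
  have h4 : Q.bd D u c = 0 := by rw [s.bd]; simp [h1, h2]
  have h5 : Q.cnt D u c = 2 := by
    rcases cnt_of_bd_zero s.sph s.sub h4 with h6 | h6
    · exact absurd h6 h3
    · exact h6
  have h6 := Q.cnt_sdiff s.sub u c
  have h7 := cnt_le_two s.sph (Finset.Subset.refl E) u c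
  omega

/-- the segment lemma -/
theorem segment {X : Finset ι} (hX : X ⊆ E) (hXu : ∀ i ∈ X, Q.atA i u) (hgX : g ∉ X)
    (hin : ∀ c, c ≠ h → c ≠ f → Q.cnt D u c ≠ 0 → Q.bd X u c = 0) : Disjoint X D ∨ D ⊆ X := by
  have hSX : X ∩ D ⊆ X := Finset.inter_subset_left
  have hSD : X ∩ D ⊆ D := Finset.inter_subset_right
  have hSE : X ∩ D ⊆ E := hSX.trans hX
  have h0 : ∀ c, c ≠ h → c ≠ f → Q.bd (X ∩ D) u c = 0 := by
    intro c h1 h2
    by_cases h3 : Q.cnt D u c = 0
    · apply Q.bd_eq_zero_of_cnt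
      have := Q.cnt_mono hSD u c
      omega
    · have h4 := hin c h1 h2 h3
      have h5 := s.inner h1 h2 h3
      have h6 : Q.cnt (X \ (X ∩ D)) u c = 0 := by
        have : X \ (X ∩ D) ⊆ E \ D := by
          intro i hi
          rw [Finset.mem_sdiff, Finset.mem_inter] at hi
          rw [Finset.mem_sdiff]
          exact ⟨hX hi.1, fun h7 => hi.2 ⟨hi.1, h7⟩⟩
        have := Q.cnt_mono this u c
        omega
      have h7 := Q.cnt_sdiff hSX u c
      rw [h6, zero_add] at h7
      unfold QS.bd at h4 ⊢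
      rw [h7]; exact h4
  have hsum := Q.sum_bd_B (X ∩ D) u
  have h1 : Q.bd (X ∩ D) u h + Q.bd (X ∩ D) u f = 0 := by
    rw [← hsum]
    symm
    have h2 : ∑ b, Q.bd (X ∩ D) u b = ∑ b ∈ ({h, f} : Finset B), Q.bd (X ∩ D) u b := by
      symm
      apply Finset.sum_subset (Finset.subset_univ _)
      intro b _ hb
      simp only [Finset.mem_insert, Finset.mem_singleton, not_or] at hb
      exact h0 b hb.1 hb.2
    rw [h2, Finset.sum_pair s.hf]
  rcases zmod2_cases (Q.bd (X ∩ D) u h) with h2 | h2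
  · left
    have h3 : Q.bd (X ∩ D) u f = 0 := by rw [h2, zero_add] at h1; exact h1
    have h4 : ∀ c, Q.bd (X ∩ D) u c = 0 := by
      intro c
      by_cases e1 : c = h
      · rw [e1]; exact h2
      · by_cases e2 : c = f
        · rw [e2]; exact h3
        · exact h0 c e1 e2
    rw [Finset.disjoint_iff_inter_eq_empty]
    rcases s.sph.linkA u (X ∩ D) hSE h4 with h5 | h5
    · exact absurd (hSX (h5 g s.gE s.gu)) hgX
    · rw [Finset.eq_empty_iff_forall_notMem]
      intro i hi
      exact h5 i hi (hXu i (hSX hi))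
  · right
    have h3 : Q.bd (X ∩ D) u f = 1 := by
      rw [h2] at h1
      exact (CharTwo.add_eq_zero.1 h1).symm
    have h4 : ∀ c, Q.bd (D \ (X ∩ D)) u c = 0 := by
      intro c
      rw [Q.bd_sdiff hSD, s.bd]
      by_cases e1 : c = h
      · rw [e1, h2]; simp; decide
      · by_cases e2 : c = f
        · rw [e2, h3]; simp; decide
        · rw [h0 c e1 e2]; simp [e1, e2]
    rcases s.sph.linkA u (D \ (X ∩ D)) (Finset.sdiff_subset.trans s.sub) h4 with h5 | h5
    · exact absurd (Finset.mem_sdiff.1 (h5 g s.gE s.gu)).1 s.gD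
    · intro i hi
      by_contra h6
      exact h5 i (Finset.mem_sdiff.2 ⟨hi, fun h7 => h6 (hSX h7)⟩) (s.atu i hi)

/-- the second alternative of the segment lemma contains a face at `(u,h)` -/
theorem bd_h_of_sub {X : Finset ι} (hX : X ⊆ E) (hgX : g ∉ X) (hDX : D ⊆ X) :
    Q.bd X u h = 1 := by
  have h1 : Q.cnt (X \ D) u h = 0 := by
    apply s.at_uh (Finset.sdiff_subset.trans hX)
    · intro h2; exact hgX (Finset.mem_sdiff.1 h2).1
    · exact Finset.sdiff_disjoint
  have h2 := Q.cnt_sdiff hDX u h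
  rw [h1, zero_add, s.cntD_h] at h2
  unfold QS.bd; rw [← h2]; simp

theorem bd_h_of_disj {X : Finset ι} (hX : X ⊆ E) (hgX : g ∉ X) (hDX : Disjoint X D) :
    Q.bd X u h = 0 := Q.bd_eq_zero_of_cnt (s.at_uh hX hgX hDX)

/-- Clean survives. -/
theorem clean_core (hcl : Clean Q E u g) {z : A} {b b' : B} (hz : z ≠ u) (hbb : b ≠ b')
    (h1 : Adj (Q.ren f h) (E \ D) u b) (h2 : Adj (Q.ren f h) (E \ D) u b')
    (h3 : Adj (Q.ren f h) E z b) (h4 : Adj (Q.ren f h) E z b') :
    (∃ i ∈ E \ D, Q.atA i u ∧ (Q.ren f h).atB i b ∧ (Q.ren f h).atB i b') ∨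
    (∃ X ⊆ E \ D, g ∉ X ∧ (∀ i ∈ X, Q.atA i u ∧ Q.atA i z) ∧
      (∀ c, (Q.ren f h).bd X u c = if c = b ∨ c = b' then 1 else 0)) := by
  have hhf := s.hf
  -- new neighbours of u other than h are old neighbours, not touched by D
  have nf : ∀ {S : Finset ι} {a : A} {c : B}, Adj (Q.ren f h) S a c → c ≠ f := by
    rintro S a c ⟨i, _, _, hi⟩ rfl
    exact ren_atB_f hhf i hi
  have old : ∀ {S : Finset ι} {a : A} {c : B}, Adj (Q.ren f h) S a c → c ≠ h → Adj Q S a c := by
    rintro S a c hc hch
    have hcf := nf hc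
    obtain ⟨i, hi, hia, hib⟩ := hc
    exact ⟨i, hi, hia, (ren_atB_other hch hcf i).1 hib⟩
  have mono : ∀ {a : A} {c : B}, Adj Q (E \ D) a c → Adj Q E a c := by
    rintro a c ⟨i, hi, h5⟩
    exact ⟨i, (Finset.mem_sdiff.1 hi).1, h5⟩
  have untouched : ∀ {c : B}, Adj (Q.ren f h) (E \ D) u c → c ≠ h → Q.cnt D u c = 0 := by
    intro c hc hch
    by_contra h5
    have h6 := s.inner hch (nf hc) h5
    exact adj_iff.1 (old hc hch) h6
  have uf : Adj Q E u f := by
    rw [adj_iff]
    have := Q.cnt_mono s.sub u f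
    rw [s.cntD_f] at this
    omega
  have uh : Adj Q E u h := ⟨g, s.gE, s.gu, s.gh⟩
  have notD : ∀ {i : ι} {c : B}, i ∈ E → Q.atA i u → Q.atB i c → Q.cnt D u c = 0 → i ∈ E \ D := by
    intro i c hi hiu hic h5
    rw [Finset.mem_sdiff]
    exact ⟨hi, fun h6 => cnt_pos_of_mem h6 hiu hic h5⟩
  -- the mixed case
  have mixed : ∀ {c : B}, c ≠ h → Adj (Q.ren f h) (E \ D) u c → Adj (Q.ren f h) E z h →
      Adj (Q.ren f h) E z c →
      (∃ i ∈ E \ D, Q.atA i u ∧ (Q.ren f h).atB i h ∧ (Q.ren f h).atB i c) ∨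
      (∃ X ⊆ E \ D, g ∉ X ∧ (∀ i ∈ X, Q.atA i u ∧ Q.atA i z) ∧
        (∀ d, (Q.ren f h).bd X u d = if d = h ∨ d = c then 1 else 0)) := by
    intro c hch huc hzh hzc
    have hcf := nf huc
    have hcD := untouched huc hch
    have hoc := mono (old huc hch)
    have hozc := old hzc hch
    have hzhf : Adj Q E z h ∨ Adj Q E z f := by
      obtain ⟨i, hi, hia, hib⟩ := hzh
      rcases (ren_atB_hub hhf i).1 hib with h5 | h5
      · exact Or.inl ⟨i, hi, hia, h5⟩
      · exact Or.inr ⟨i, hi, hia, h5⟩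
    -- a set with boundary {f, c} at u gives the result
    have fin : ∀ {X : Finset ι}, X ⊆ E \ D → g ∉ X → (∀ i ∈ X, Q.atA i u ∧ Q.atA i z) →
        (∀ d, Q.bd X u d = if d = f ∨ d = c then 1 else 0) →
        (∃ X ⊆ E \ D, g ∉ X ∧ (∀ i ∈ X, Q.atA i u ∧ Q.atA i z) ∧
        (∀ d, (Q.ren f h).bd X u d = if d = h ∨ d = c then 1 else 0)) := by
      intro X hX hgX hXa hXb
      refine ⟨X, hX, hgX, hXa, ?_⟩
      intro d
      by_cases e1 : d = h
      · subst e1
        rw [ren_bd_hub hhf, hXb, hXb]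
        simp [hhf, Ne.symm hch]
      · by_cases e2 : d = f
        · subst e2
          unfold QS.bd
          rw [ren_cnt_f hhf]
          simp [e1, Ne.symm hcf]
        · rw [ren_bd_other e1 e2, hXb]
          simp [e1, e2]
    rcases hzhf with h5 | h5
    · rcases hcl z h c hz (Ne.symm hch) uh hoc h5 hozc with ⟨i, hi, h6, h7, h8⟩ | ⟨X, hX, hgX, hXa, hXb⟩
      · left
        exact ⟨i, notD hi h6 h8 hcD, h6, (ren_atB_hub hhf i).2 (Or.inl h7),
          (ren_atB_other hch hcf i).2 h8⟩
      · right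
        have hseg := s.segment hX (fun i hi => (hXa i hi).1) hgX (by
          intro d h6 h7 h8
          rw [hXb]
          have : d ≠ c := by
            rintro rfl
            exact h8 hcD
          simp [h6, this])
        rcases hseg with h6 | h6
        · exfalso
          have h7 := s.bd_h_of_disj hX hgX h6
          rw [hXb] at h7
          simp at h7
        · refine fin (X := X \ D) ?_ ?_ ?_ ?_
          · intro i hi
            rw [Finset.mem_sdiff] at hi ⊢
            exact ⟨hX hi.1, hi.2⟩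
          · intro h7; exact hgX (Finset.mem_sdiff.1 h7).1
          · intro i hi; exact hXa i (Finset.mem_sdiff.1 hi).1
          · intro d
            rw [Q.bd_sdiff h6, hXb, s.bd]
            by_cases e1 : d = h
            · subst e1
              have : (1 : ZMod 2) + 1 = 0 := by decide
              simp [hhf, Ne.symm hch, this]
            · by_cases e2 : d = f
              · subst e2; simp [e1, Ne.symm hcf]
              · simp [e1, e2]
    · rcases hcl z f c hz (Ne.symm hcf) uf hoc h5 hozc with ⟨i, hi, h6, h7, h8⟩ | ⟨X, hX, hgX, hXa, hXb⟩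
      · left
        exact ⟨i, notD hi h6 h8 hcD, h6, (ren_atB_hub hhf i).2 (Or.inr h7),
          (ren_atB_other hch hcf i).2 h8⟩
      · right
        have hXh : Q.bd X u h = 0 := by rw [hXb]; simp [hhf, Ne.symm hch]
        have hseg := s.segment hX (fun i hi => (hXa i hi).1) hgX (by
          intro d h6 h7 h8
          rw [hXb]
          have : d ≠ c := by
            rintro rfl
            exact h8 hcD
          simp [h7, this])
        rcases hseg with h6 | h6
        · refine fin (X := X) ?_ hgX hXa hXb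
          intro i hi
          rw [Finset.mem_sdiff]
          exact ⟨hX hi, fun h7 => (Finset.disjoint_left.1 h6) hi h7⟩
        · exfalso
          have h7 := s.bd_h_of_sub hX hgX h6
          rw [hXh] at h7
          exact absurd h7 (by decide)
  by_cases hb : b = h
  · subst hb
    exact mixed (Ne.symm hbb) h2 h3 h4
  · by_cases hb' : b' = h
    · subst hb'
      rcases mixed hbb h1 h4 h3 with ⟨i, hi, h5, h6, h7⟩ | ⟨X, hX, hgX, hXa, hXb⟩
      · exact Or.inl ⟨i, hi, h5, h7, h6⟩
      · refine Or.inr ⟨X, hX, hgX, hXa, fun d => ?_⟩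
        rw [hXb]
        simp only [or_comm]
    · -- both different from h
      have hbf := nf h1
      have hbf' := nf h2
      have hbD := untouched h1 hb
      have hbD' := untouched h2 hb'
      rcases hcl z b b' hz hbb (mono (old h1 hb)) (mono (old h2 hb')) (old h3 hb) (old h4 hb')
        with ⟨i, hi, h6, h7, h8⟩ | ⟨X, hX, hgX, hXa, hXb⟩
      · left
        exact ⟨i, notD hi h6 h7 hbD, h6, (ren_atB_other hb hbf i).2 h7,
          (ren_atB_other hb' hbf' i).2 h8⟩
      · right
        have hXh : Q.bd X u h = 0 := by rw [hXb]; simp [Ne.symm hb, Ne.symm hb']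
        have hseg := s.segment hX (fun i hi => (hXa i hi).1) hgX (by
          intro d h6 h7 h8
          rw [hXb]
          have e1 : d ≠ b := by rintro rfl; exact h8 hbD
          have e2 : d ≠ b' := by rintro rfl; exact h8 hbD'
          simp [e1, e2])
        rcases hseg with h6 | h6
        · refine ⟨X, ?_, hgX, hXa, ?_⟩
          · intro i hi
            rw [Finset.mem_sdiff]
            exact ⟨hX hi, fun h7 => (Finset.disjoint_left.1 h6) hi h7⟩
          · intro d
            by_cases e1 : d = h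
            · subst e1
              rw [ren_bd_hub hhf, hXb, hXb]
              simp [Ne.symm hb, Ne.symm hb', Ne.symm hbf, Ne.symm hbf']
            · by_cases e2 : d = f
              · subst e2
                unfold QS.bd
                rw [ren_cnt_f hhf]
                simp [Ne.symm hbf, Ne.symm hbf']
              · rw [ren_bd_other e1 e2, hXb]
        · exfalso
          have h7 := s.bd_h_of_sub hX hgX h6
          rw [hXh] at h7
          exact absurd h7 (by decide)

/-- a second common neighbour `z` of `h` and `f`: a face at `u` with the sides `h f`, or all faces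
of `D` have the end `z` -/
theorem common (hcl : Clean Q E u g) {z : A} (hz : z ≠ u) (h1 : Adj Q E z h) (h2 : Adj Q E z f) :
    (∃ i ∈ E, Q.atA i u ∧ Q.atB i h ∧ Q.atB i f) ∨ (∀ i ∈ D, Q.atA i z) := by
  have uf : Adj Q E u f := by
    rw [adj_iff]
    have := Q.cnt_mono s.sub u f
    rw [s.cntD_f] at this
    omega
  have uh : Adj Q E u h := ⟨g, s.gE, s.gu, s.gh⟩
  rcases hcl z h f hz s.hf uh uf h1 h2 with h3 | ⟨X, hX, hgX, hXa, hXb⟩
  · exact Or.inl h3
  · right
    have hseg := s.segment hX (fun i hi => (hXa i hi).1) hgX (by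
      intro d h6 h7 h8
      rw [hXb]; simp [h6, h7])
    rcases hseg with h6 | h6
    · exfalso
      have h7 := s.bd_h_of_disj hX hgX h6
      rw [hXb] at h7
      simp at h7
    · exact fun i hi => (hXa i (h6 hi)).2

end Seg

end Helper83.PY
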