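import Pool.Agent.Helper83.PY.ThmA

/-!
Definitions of the three surgeries (closure of a region, doubling of a face, splitting of a vertex).
-/

open Finset

set_option linter.unusedSectionVars false
set_option linter.unusedSimpArgs false
set_option linter.unusedVariables false

namespace Helper83.PY

variable {ι A B : Type*} [DecidableEq ι] [DecidableEq A] [DecidableEq B] [Fintype A] [Fintype B]

/-- redefine one face -/
def QS.setFace (Q : QS ι A B) (e : ι) (v z : A) (h f : B) : QS ι A B :=
  ⟨Function.update Q.p e v, Function.update Q.q e z, Function.update Q.x e h,
    Function.update Q.y e f⟩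

/-- doubling of the face `e0` with a new side `none` in the middle; `e1` is the second copy:
`e0 = (p, x, q, none)`, `e1 = (p, none, q, y)`. -/
def QS.dbl (Q : QS ι A B) (e0 e1 : ι) : QS ι A (Option B) where
  p := fun i => if i = e1 then Q.p e0 else Q.p i
  q := fun i => if i = e1 then Q.q e0 else Q.q i
  x := fun i => if i = e1 then none else some (Q.x i)
  y := fun i => if i = e1 then some (Q.y e0) else if i = e0 then none else some (Q.y i)

/-- splitting of the end `u`: the faces of `X` get the new end `none` instead of `u`;
the side `f` is renamed to `h`. -/
def QS.split (Q : QS ι A B) (u : A) (X : Finset ι) (f h : B) : QS ι (Option A) B where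
  p := fun i => if i ∈ X ∧ Q.p i = u then none else some (Q.p i)
  q := fun i => if i ∈ X ∧ Q.q i = u then none else some (Q.q i)
  x := fun i => if Q.x i = f then h else Q.x i
  y := fun i => if Q.y i = f then h else Q.y i

end Helper83.PY
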